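import Mathlib

set_option autoImplicit false
set_option linter.unusedSectionVars false

namespace Pool.Agent.H694Z.Br

open MeasureTheory Filter Topology Set
open scoped InnerProductSpace Pointwise

section abstract
variable {G : Type} [CommGroup G] [TopologicalSpace G] [IsTopologicalGroup G]
  [LocallyCompactSpace G] [T2Space G] [MeasurableSpace G] [BorelSpace G]
  (μ : Measure G) [μ.IsHaarMeasure]
  {H : Type} [NormedAddCommGroup H] [InnerProductSpace ℂ H] [CompleteSpace H]

/-- A strongly continuous unitary representation. -/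
structure Rep (G : Type) [CommGroup G] [TopologicalSpace G] (H : Type) [NormedAddCommGroup H]
    [InnerProductSpace ℂ H] [CompleteSpace H] where
  op : G → (H →L[ℂ] H)
  op_one : op 1 = 1
  op_mul : ∀ x y, op (x * y) = op x * op y
  op_star : ∀ x, star (op x) = op x⁻¹
  op_norm : ∀ x w, ‖op x w‖ = ‖w‖
  op_cont : ∀ w, Continuous fun x => op x w

variable (ρ : Rep G H)

lemma integrable_rep {F : G → ℂ} (hF : Continuous F) (hF' : HasCompactSupport F) (w : H) :
    Integrable (fun x => F x • ρ.op x w) μ := by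
  apply Continuous.integrable_of_hasCompactSupport
  · exact hF.smul (ρ.op_cont w)
  · exact hF'.smul_right

lemma norm_int_rep_le {F : G → ℂ} (w : H) :
    ‖∫ x, F x • ρ.op x w ∂μ‖ ≤ (∫ x, ‖F x‖ ∂μ) * ‖w‖ := by
  refine (norm_integral_le_integral_norm _).trans (le_of_eq ?_)
  simp only [norm_smul, ρ.op_norm]
  rw [integral_mul_const]

/-- the integrated operator -/
noncomputable def opF {F : G → ℂ} (hF : Continuous F) (hF' : HasCompactSupport F) : H →L[ℂ] H :=
  LinearMap.mkContinuous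
    { toFun := fun w => ∫ x, F x • ρ.op x w ∂μ
      map_add' := fun v w => by
        rw [← integral_add (integrable_rep μ ρ hF hF' v) (integrable_rep μ ρ hF hF' w)]
        simp only [map_add, smul_add]
      map_smul' := fun c w => by
        simp only [RingHom.id_apply]
        rw [← integral_smul]
        simp only [map_smul]
        congr 1
        ext x
        rw [smul_comm] }
    (∫ x, ‖F x‖ ∂μ) (fun w => norm_int_rep_le μ ρ w)

lemma opF_apply {F : G → ℂ} (hF : Continuous F) (hF' : HasCompactSupport F) (w : H) :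
    opF μ ρ hF hF' w = ∫ x, F x • ρ.op x w ∂μ := rfl

lemma op_opF {F : G → ℂ} (hF : Continuous F) (hF' : HasCompactSupport F) (x : G) (w : H) :
    ρ.op x (opF μ ρ hF hF' w) = ∫ y, F (x⁻¹ * y) • ρ.op y w ∂μ := by
  rw [opF_apply, ← (ρ.op x).integral_comp_comm (integrable_rep μ ρ hF hF' w),
    ← integral_mul_left_eq_self (fun y => F (x⁻¹ * y) • ρ.op y w) x]
  congr 1
  ext y
  rw [map_smul, inv_mul_cancel_left, ρ.op_mul]
  rfl

lemma cont_transl {F : G → ℂ} (hF : Continuous F) (hF' : HasCompactSupport F) (x₀ : G) :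
    Tendsto (fun x => ∫ y, ‖F (x⁻¹ * y) - F (x₀⁻¹ * y)‖ ∂μ) (𝓝 x₀) (𝓝 0) := by
  obtain ⟨V, hV, hV'⟩ := exists_compact_mem_nhds x₀
  have hk : IsCompact (V * tsupport F) := hV.mul hF'
  have h1 : ContinuousOn (fun x => ∫ y, ‖F (x⁻¹ * y) - F (x₀⁻¹ * y)‖ ∂μ) V := by
    apply continuousOn_integral_of_compact_support hk
    · apply Continuous.continuousOn
      show Continuous fun p : G × G => ‖F (p.1⁻¹ * p.2) - F (x₀⁻¹ * p.2)‖
      fun_prop
    · intro p y hp hy
      have h2 : ∀ q ∈ V, F (q⁻¹ * y) = 0 := by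
        intro q hq
        by_contra h
        exact hy ⟨q, hq, q⁻¹ * y, subset_tsupport F h, by simp⟩
      rw [h2 p hp, h2 x₀ (mem_of_mem_nhds hV')]
      simp
  have h2 := (h1.continuousAt hV').tendsto
  simpa using h2

lemma cont_op_opF {F : G → ℂ} (hF : Continuous F) (hF' : HasCompactSupport F) :
    Continuous fun x => ρ.op x * opF μ ρ hF hF' := by
  rw [continuous_iff_continuousAt]
  intro x₀
  rw [ContinuousAt, tendsto_iff_norm_sub_tendsto_zero]
  refine squeeze_zero (fun _ => norm_nonneg _) (fun x => ?_) (cont_transl μ hF hF' x₀)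
  refine ContinuousLinearMap.opNorm_le_bound _ (integral_nonneg fun _ => norm_nonneg _) fun w => ?_
  have hc : ∀ z : G, Continuous fun y => F (z⁻¹ * y) := fun z => by fun_prop
  have hs : ∀ z : G, HasCompactSupport fun y => F (z⁻¹ * y) := fun z =>
    hF'.comp_homeomorph (Homeomorph.mulLeft z⁻¹)
  have : (ρ.op x * opF μ ρ hF hF' - ρ.op x₀ * opF μ ρ hF hF') w =
      ∫ y, (F (x⁻¹ * y) - F (x₀⁻¹ * y)) • ρ.op y w ∂μ := by
    show ρ.op x (opF μ ρ hF hF' w) - ρ.op x₀ (opF μ ρ hF hF' w) = _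
    rw [op_opF, op_opF, ← integral_sub (integrable_rep μ ρ (hc x) (hs x) w)
      (integrable_rep μ ρ (hc x₀) (hs x₀) w)]
    simp only [sub_smul]
  rw [this]
  exact norm_int_rep_le μ ρ w

/-- the bicommutant -/
noncomputable def bic : StarSubalgebra ℂ (H →L[ℂ] H) :=
  StarSubalgebra.centralizer ℂ
    (StarSubalgebra.centralizer ℂ (Set.range ρ.op) : Set (H →L[ℂ] H))

lemma coe_bic : (bic ρ : Set (H →L[ℂ] H)) = (Set.range ρ.op).centralizer.centralizer := by
  have : star (Set.range ρ.op) ⊆ Set.range ρ.op := by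
    intro a ha
    obtain ⟨x, hx⟩ := Set.mem_star.1 ha
    exact ⟨x⁻¹, by rw [← ρ.op_star, hx, star_star]⟩
  have h := StarSubalgebra.coe_centralizer_centralizer ℂ (Set.range ρ.op)
  rw [Set.union_eq_self_of_subset_right this] at h
  exact h

lemma isClosed_bic : IsClosed (bic ρ : Set (H →L[ℂ] H)) := by
  rw [coe_bic]; exact Set.isClosed_centralizer _

lemma bic_comm (a b : bic ρ) : a * b = b * a := by
  apply Subtype.ext
  have ha : (a : H →L[ℂ] H) ∈ (Set.range ρ.op).centralizer.centralizer := by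
    rw [← coe_bic]; exact a.2
  have hb : (b : H →L[ℂ] H) ∈ (Set.range ρ.op).centralizer.centralizer := by
    rw [← coe_bic]; exact b.2
  refine Set.centralizer_centralizer_comm_of_comm ?_ _ ha _ hb
  rintro _ ⟨x, rfl⟩ _ ⟨y, rfl⟩
  rw [← ρ.op_mul, ← ρ.op_mul, mul_comm]

lemma op_mem (x : G) : ρ.op x ∈ bic ρ := by
  rw [← SetLike.mem_coe, coe_bic]
  exact Set.subset_centralizer_centralizer ⟨x, rfl⟩

lemma opF_mem {F : G → ℂ} (hF : Continuous F) (hF' : HasCompactSupport F) :
    opF μ ρ hF hF' ∈ bic ρ := by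
  rw [← SetLike.mem_coe, coe_bic]
  intro T hT
  ext w
  show T (opF μ ρ hF hF' w) = opF μ ρ hF hF' (T w)
  rw [opF_apply, opF_apply, ← T.integral_comp_comm (integrable_rep μ ρ hF hF' w)]
  congr 1
  ext x
  rw [map_smul]
  congr 1
  have := hT (ρ.op x) ⟨x, rfl⟩
  exact (congrArg (fun S : H →L[ℂ] H => S w) this).symm

@[reducible] noncomputable def bicC : CommCStarAlgebra (bic ρ) :=
  { StarSubalgebra.cstarAlgebra (bic ρ) (h_closed := isClosed_bic ρ) with
    mul_comm := bic_comm ρ }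

theorem spec {F : G → ℂ} (hF : Continuous F) (hF' : HasCompactSupport F) {t : ℝ} (ht : 0 ≤ t)
    (h : ∀ χ : PontryaginDual G, (∫ x, F x * (χ x : ℂ) ∂μ).re ≤ t) (w : H) :
    (⟪w, opF μ ρ hF hF' w⟫_ℂ).re ≤ t * ‖w‖ ^ 2 := by
  let _ := bicC ρ
  let a : bic ρ := ⟨opF μ ρ hF hF', opF_mem μ ρ hF hF'⟩
  let p : G → bic ρ := fun x => ⟨ρ.op x, op_mem ρ x⟩
  have hpa : Continuous fun x => p x * a :=
    Continuous.subtype_mk (cont_op_opF μ ρ hF hF') _
  have hint : Integrable (fun x => F x • (p x * a)) μ :=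
    Continuous.integrable_of_hasCompactSupport (hF.smul hpa) hF'.smul_right
  have haa : ∫ x, F x • (p x * a) ∂μ = a * a := by
    apply Subtype.ext
    ext v
    let L : bic ρ →L[ℂ] H :=
      LinearMap.mkContinuous
        { toFun := fun b => (b : H →L[ℂ] H) v
          map_add' := fun _ _ => rfl
          map_smul' := fun _ _ => rfl } ‖v‖
        (fun b => by
          rw [mul_comm]; exact (b : H →L[ℂ] H).le_opNorm v)
    have := L.integral_comp_comm hint
    exact this.symm
  have key : ∀ ω : WeakDual.characterSpace ℂ (bic ρ), (ω a).re ≤ t := by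
    intro ω
    by_cases h0 : ω a = 0
    · rw [h0]; simpa using ht
    have hn : ∀ x, ω (p x) ∈ Submonoid.unitSphere ℂ := by
      intro x
      have h1 : star (p x) * p x = 1 := by
        apply Subtype.ext
        show star (ρ.op x) * ρ.op x = 1
        rw [ρ.op_star, ← ρ.op_mul, inv_mul_cancel, ρ.op_one]
      have h2 := congrArg ω h1
      rw [map_mul, map_star, map_one] at h2
      have h3 := congrArg norm h2
      rw [norm_mul, norm_star, norm_one] at h3
      have h4 : ‖ω (p x)‖ = 1 := by nlinarith [norm_nonneg (ω (p x))]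
      simpa [Submonoid.unitSphere] using h4
    have hωc : Continuous ω := map_continuous ω
    have hc : Continuous fun x => ω (p x) := by
      have : (fun x => ω (p x)) = fun x => ω (p x * a) / ω a := by
        ext x; rw [map_mul, mul_div_cancel_right₀ _ h0]
      rw [this]
      exact (hωc.comp hpa).div_const _
    let χ : G →ₜ* Circle :=
      { toFun := fun x => ⟨ω (p x), hn x⟩
        map_one' := by
          apply Subtype.ext
          show ω (p 1) = 1
          have : p 1 = 1 := Subtype.ext ρ.op_one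
          rw [this, map_one]
        map_mul' := fun x y => by
          apply Subtype.ext
          show ω (p (x * y)) = ω (p x) * ω (p y)
          have : p (x * y) = p x * p y := Subtype.ext (ρ.op_mul x y)
          rw [this, map_mul]
        continuous_toFun := Continuous.subtype_mk hc _ }
    have h1 : ω (a * a) = ∫ x, F x * ω (p x) * ω a ∂μ := by
      rw [← haa]
      have := (WeakDual.CharacterSpace.toCLM ω).integral_comp_comm hint
      simp only [WeakDual.CharacterSpace.coe_toCLM, map_smul, map_mul, smul_eq_mul] at this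
      rw [← this]
      simp only [mul_assoc]
    rw [map_mul, integral_mul_const] at h1
    have h2 := mul_right_cancel₀ h0 h1
    rw [h2]
    exact h χ
  let s : ℝ := ‖a‖
  let b : bic ρ := (1 / 2 : ℂ) • (a + star a) + (s : ℂ) • 1
  have hb : ‖b‖ ≤ t + s := by
    rw [← (gelfandTransform_isometry (bic ρ)).norm_map_of_map_zero (map_zero _) b]
    refine (ContinuousMap.norm_le _ (by positivity)).2 fun ω => ?_
    have h1 : WeakDual.gelfandTransform ℂ (bic ρ) b ω = (((ω a).re + s : ℝ) : ℂ) := by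
      show ω b = _
      simp only [b, map_add, map_smul, map_star, map_one, smul_eq_mul]
      apply Complex.ext <;> simp
      ring
    rw [h1, Complex.norm_real, Real.norm_eq_abs, abs_le]
    have h2 : ‖ω a‖ ≤ s := by
      have h3 := (WeakDual.gelfandTransform ℂ (bic ρ) a).norm_coe_le_norm ω
      rw [(gelfandTransform_isometry (bic ρ)).norm_map_of_map_zero (map_zero _) a] at h3
      exact h3
    have h4 := (abs_le.1 ((Complex.abs_re_le_norm (ω a)).trans h2)).1
    have h5 := key ω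
    constructor <;> linarith
  have h1 : (⟪w, (b : H →L[ℂ] H) w⟫_ℂ).re ≤ (t + s) * ‖w‖ ^ 2 := by
    refine (Complex.re_le_norm _).trans ((norm_inner_le_norm _ _).trans ?_)
    have h2 : ‖(b : H →L[ℂ] H) w‖ ≤ (t + s) * ‖w‖ :=
      ((b : H →L[ℂ] H).le_opNorm w).trans (mul_le_mul_of_nonneg_right hb (norm_nonneg _))
    calc ‖w‖ * ‖(b : H →L[ℂ] H) w‖ ≤ ‖w‖ * ((t + s) * ‖w‖) :=
          mul_le_mul_of_nonneg_left h2 (norm_nonneg _)
      _ = _ := by ring
  have h2 : (b : H →L[ℂ] H) w = (1 / 2 : ℂ) • (opF μ ρ hF hF' w +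
      ContinuousLinearMap.adjoint (opF μ ρ hF hF') w) + (s : ℂ) • w := rfl
  rw [h2, inner_add_right, inner_smul_right, inner_smul_right, inner_add_right,
    ContinuousLinearMap.adjoint_inner_right, inner_self_eq_norm_sq_to_K] at h1
  have h3 : (⟪opF μ ρ hF hF' w, w⟫_ℂ).re = (⟪w, opF μ ρ hF hF' w⟫_ℂ).re := by
    rw [← inner_conj_symm, Complex.conj_re]
  have h4 : ((1 / 2 : ℂ) * (⟪w, opF μ ρ hF hF' w⟫_ℂ + ⟪opF μ ρ hF hF' w, w⟫_ℂ) +
      (s : ℂ) * ((‖w‖ : ℂ)) ^ 2).re = (⟪w, opF μ ρ hF hF' w⟫_ℂ).re + s * ‖w‖ ^ 2 := by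
    have h5 : ((‖w‖ : ℂ)) ^ 2 = ((‖w‖ ^ 2 : ℝ) : ℂ) := by push_cast; ring
    rw [h5, ← Complex.ofReal_mul, Complex.add_re, Complex.ofReal_re]
    have h6 : (1 / 2 : ℂ) = ((1 / 2 : ℝ) : ℂ) := by push_cast; ring
    rw [h6, Complex.re_ofReal_mul, Complex.add_re, h3]
    ring
  have h5 : (⟪w, opF μ ρ hF hF' w⟫_ℂ).re + s * ‖w‖ ^ 2 ≤ (t + s) * ‖w‖ ^ 2 := by
    rw [← h4]; exact h1
  linarith

theorem spec' {F : G → ℂ} (hF : Continuous F) (hF' : HasCompactSupport F) {t : ℝ} (ht : 0 ≤ t)
    (h : ∀ χ : PontryaginDual G, (∫ x, F x * (χ x : ℂ) ∂μ).re ≤ t) (w : H) :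
    (∫ x, F x * ⟪w, ρ.op x w⟫_ℂ ∂μ).re ≤ t * ‖w‖ ^ 2 := by
  have h2 := spec μ ρ hF hF' ht h w
  have h3 := (innerSL ℂ w).integral_comp_comm (integrable_rep μ ρ hF hF' w)
  simp only [innerSL_apply_apply, inner_smul_right] at h3
  rw [h3]
  exact h2

end abstract

section concrete
variable {G : Type} [CommGroup G] [TopologicalSpace G] [IsTopologicalGroup G]
  [LocallyCompactSpace G] [T2Space G] [MeasurableSpace G] [BorelSpace G]
  (μ : Measure G) [μ.IsHaarMeasure] [μ.InnerRegularCompactLTTop]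

noncomputable def trL (x : G) : Lp ℂ 2 μ →L[ℂ] Lp ℂ 2 μ :=
  (Lp.compMeasurePreservingₗᵢ ℂ (fun y : G => x * y)
    (measurePreserving_mul_left μ x)).toContinuousLinearMap

lemma trL_ae (x : G) (f : Lp ℂ 2 μ) : trL μ x f =ᵐ[μ] fun y => f (x * y) :=
  Lp.coeFn_compMeasurePreserving f (measurePreserving_mul_left μ x)

lemma trL_norm (x : G) (f : Lp ℂ 2 μ) : ‖trL μ x f‖ = ‖f‖ :=
  Lp.norm_compMeasurePreserving f (measurePreserving_mul_left μ x)

lemma trL_one : trL μ 1 = 1 := by
  ext f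
  filter_upwards [trL_ae μ 1 f] with y hy
  rw [hy, one_mul]; rfl

lemma trL_mul (x y : G) : trL μ (x * y) = trL μ x * trL μ y := by
  ext f
  have h := (measurePreserving_mul_left μ x).quasiMeasurePreserving.ae_eq_comp (trL_ae μ y f)
  filter_upwards [trL_ae μ x (trL μ y f), trL_ae μ (x * y) f, h] with z h1 h2 h3
  show trL μ (x * y) f z = trL μ x (trL μ y f) z
  rw [h1, h2]
  simp only [Function.comp_apply] at h3
  rw [h3, mul_comm x y, mul_assoc]

lemma trL_inner (x : G) (f g : Lp ℂ 2 μ) : ⟪trL μ x f, trL μ x g⟫_ℂ = ⟪f, g⟫_ℂ :=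
  (Lp.compMeasurePreservingₗᵢ ℂ (fun y : G => x * y)
    (measurePreserving_mul_left μ x)).inner_map_map f g

lemma trL_star (x : G) : star (trL μ x) = trL μ x⁻¹ := by
  rw [ContinuousLinearMap.star_eq_adjoint]
  symm
  rw [ContinuousLinearMap.eq_adjoint_iff]
  intro f g
  rw [← trL_inner μ x]
  congr 1
  show (trL μ x * trL μ x⁻¹) f = f
  rw [← trL_mul, mul_inv_cancel, trL_one]; rfl

lemma trL_cont (f : Lp ℂ 2 μ) : Continuous (fun x => trL μ x f) := by
  let g : G → C(G, G) := fun x => ⟨fun y => x * y, by fun_prop⟩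
  have hg : Continuous g := ContinuousMap.continuous_of_continuous_uncurry g (by
    show Continuous (fun p : G × G => p.1 * p.2)
    fun_prop)
  exact Continuous.compMeasurePreservingLp (f := fun _ => f) continuous_const hg
    (fun x => measurePreserving_mul_left μ x) ENNReal.ofNat_ne_top

noncomputable def regRep : Rep G (Lp ℂ 2 μ) where
  op := trL μ
  op_one := trL_one μ
  op_mul := trL_mul μ
  op_star := trL_star μ
  op_norm := trL_norm μ
  op_cont := trL_cont μ

/-- The positivity principle. -/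
theorem posP {F : G → ℂ} (hF : Continuous F) (hF' : HasCompactSupport F) {t : ℝ} (ht : 0 ≤ t)
    (h : ∀ χ : PontryaginDual G, (∫ x, F x * (χ x : ℂ) ∂μ).re ≤ t)
    {w : G → ℝ} (hw : Continuous w) (hw' : HasCompactSupport w) :
    (∫ x, F x * ((∫ y, w (x * y) * w y ∂μ : ℝ) : ℂ) ∂μ).re ≤ t * ∫ y, w y * w y ∂μ := by
  have hc : Continuous fun y => (w y : ℂ) := by fun_prop
  have hs : HasCompactSupport fun y => (w y : ℂ) := hw'.comp_left Complex.ofReal_zero
  have hm : MemLp (fun y => (w y : ℂ)) 2 μ := hc.memLp_of_hasCompactSupport hs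
  let W : Lp ℂ 2 μ := hm.toLp _
  have hW : W =ᵐ[μ] fun y => (w y : ℂ) := hm.coeFn_toLp
  have h1 : ∀ x, ⟪W, trL μ x W⟫_ℂ = ((∫ y, w (x * y) * w y ∂μ : ℝ) : ℂ) := by
    intro x
    rw [L2.inner_def, ← integral_complex_ofReal]
    apply integral_congr_ae
    have h2 := (measurePreserving_mul_left μ x).quasiMeasurePreserving.ae_eq_comp hW
    filter_upwards [hW, trL_ae μ x W, h2] with y h3 h4 h5
    simp only [Function.comp_apply] at h5
    rw [h4, h5, h3]
    simp
  have h2 := spec' μ (regRep μ) hF hF' ht h W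
  have h3 : ‖W‖ ^ 2 = ∫ y, w y * w y ∂μ := by
    have h4 := h1 1
    rw [trL_one] at h4
    simp only [one_mul] at h4
    have h5 : ⟪W, W⟫_ℂ = ((∫ y, w y * w y ∂μ : ℝ) : ℂ) := h4
    rw [inner_self_eq_norm_sq_to_K] at h5
    apply Complex.ofReal_injective
    rw [← h5]
    push_cast
    rfl
  rw [h3] at h2
  convert h2 using 3
  ext x
  rw [← h1 x]
  rfl

end concrete

end Pool.Agent.H694Z.Br
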