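import Pool.Agent.H694Z.Br.Folner
import Pool.Agent.H694Z.Br.Spec

set_option autoImplicit false
set_option linter.unusedSectionVars false

namespace Pool.Agent.H694Z.Br

open MeasureTheory Filter Topology Set
open scoped Pointwise ENNReal

lemma CC.int_pos {G : Type} [CommGroup G] [TopologicalSpace G] [IsTopologicalGroup G]
    [LocallyCompactSpace G] [T2Space G] [MeasurableSpace G] [BorelSpace G]
    (μ : Measure G) [μ.IsHaarMeasure]
    {f : G → ℝ} (hf : CC f) {x : G} (hx : f x ≠ 0) : 0 < ∫ y, f y ∂μ :=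
  hf.cont.integral_pos_of_hasCompactSupport_nonneg_nonzero hf.supp hf.nonneg hx

variable {G : Type} [CommGroup G] [TopologicalSpace G] [IsTopologicalGroup G]
  [LocallyCompactSpace G] [T2Space G] [MeasurableSpace G] [BorelSpace G]
  [MeasurableSpace (PontryaginDual G)] [BorelSpace (PontryaginDual G)]
  (μ : Measure G) [μ.IsHaarMeasure] (ν : Measure (PontryaginDual G)) [ν.IsHaarMeasure]


/-- inverse Fourier transform -/
noncomputable def chk (h : PontryaginDual G → ℝ) (x : G) : ℂ := ∫ a, (h a : ℂ) * (a x : ℂ) ∂ν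

lemma cont_chk {h : PontryaginDual G → ℝ} (hh : CC h) : Continuous (chk ν h) := by
  rw [← continuousOn_univ]
  apply continuousOn_integral_of_compact_support (k := tsupport h) hh.supp
  · apply Continuous.continuousOn
    show Continuous fun p : G × PontryaginDual G => (h p.2 : ℂ) * (p.2 p.1 : ℂ)
    exact (Complex.continuous_ofReal.comp (hh.cont.comp continuous_snd)).mul
      (cont_eval.comp continuous_swap)
  · intro p x _ hx
    rw [image_eq_zero_of_notMem_tsupport hx]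
    simp

lemma norm_chk_le {h : PontryaginDual G → ℝ} (hh : CC h) (x : G) :
    ‖chk ν h x‖ ≤ ∫ a, h a ∂ν := by
  refine (norm_integral_le_integral_norm _).trans (le_of_eq ?_)
  congr 1
  ext a
  rw [norm_mul, Circle.norm_coe, mul_one, Complex.norm_real, Real.norm_of_nonneg (hh.nonneg a)]

lemma chk_one (h : PontryaginDual G → ℝ) : chk ν h 1 = ((∫ a, h a ∂ν : ℝ) : ℂ) := by
  rw [chk, ← integral_complex_ofReal]
  simp

lemma ft_chk {h : PontryaginDual G → ℝ} (hh : CC h) {p : G → ℝ} (hp : CC p)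
    (χ : PontryaginDual G) :
    ∫ x, chk ν h x * (p x : ℂ) * (χ x : ℂ) ∂μ = ∫ a, (h a : ℂ) * ft μ p (a * χ) ∂ν := by
  have h1 : ∀ x, chk ν h x * (p x : ℂ) * (χ x : ℂ) =
      ∫ a, (h a : ℂ) * ((p x : ℂ) * ((a * χ) x : ℂ)) ∂ν := by
    intro x
    rw [chk, ← integral_mul_const, ← integral_mul_const]
    congr 1
    ext a
    rw [dual_mul_apply]
    ring
  simp only [h1]
  rw [integral_integral_swap_of_hasCompactSupport]
  · congr 1
    ext a
    rw [integral_const_mul, ft]
  · show Continuous fun q : G × PontryaginDual G =>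
      (h q.2 : ℂ) * ((p q.1 : ℂ) * ((q.2 * χ) q.1 : ℂ))
    refine (Complex.continuous_ofReal.comp (hh.cont.comp continuous_snd)).mul
      ((Complex.continuous_ofReal.comp (hp.cont.comp continuous_fst)).mul ?_)
    exact cont_eval.comp ((continuous_snd.mul continuous_const).prodMk continuous_fst)
  · refine HasCompactSupport.intro (K := tsupport p ×ˢ tsupport h)
      (IsCompact.prod hp.supp hh.supp) ?_
    rintro ⟨x, a⟩ hx
    show (h a : ℂ) * ((p x : ℂ) * ((a * χ) x : ℂ)) = 0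
    by_contra h0
    have h1 : h a ≠ 0 := fun h1 => h0 (by simp [h1])
    have h2 : p x ≠ 0 := fun h2 => h0 (by simp [h2])
    exact hx ⟨subset_tsupport _ h2, subset_tsupport _ h1⟩

lemma ft_chk_cor {h : PontryaginDual G → ℝ} (hh : CC h) {Z : G → ℝ} (hZ : CC Z)
    (χ : PontryaginDual G) :
    ∫ x, chk ν h x * (cor μ Z Z x : ℂ) * (χ x : ℂ) ∂μ =
      ((∫ a, h a * ‖ft μ Z (a * χ)‖ ^ 2 ∂ν : ℝ) : ℂ) := by
  rw [ft_chk μ ν hh (cor_cc μ hZ hZ), ← integral_complex_ofReal]
  congr 1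
  ext a
  rw [ft_cor_self μ hZ]
  push_cast
  ring

lemma cc_weight {h : PontryaginDual G → ℝ} (hh : CC h) {Z : G → ℝ} (hZ : CC Z)
    (χ : PontryaginDual G) : CC fun a => h a * ‖ft μ Z (a * χ)‖ ^ 2 :=
  hh.mul (((cont_ft μ hZ).comp (continuous_id.mul continuous_const)).norm.pow 2)
    (fun _ => by positivity)

lemma integrable_c {F : G → ℂ} (hF : Continuous F) {p : G → ℝ} (hp : CC p) :
    Integrable (fun x => F x * (p x : ℂ)) μ :=
  Continuous.integrable_of_hasCompactSupport (hF.mul (Complex.continuous_ofReal.comp hp.cont))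
    (hp.supp.comp_left Complex.ofReal_zero).mul_left

variable [μ.InnerRegularCompactLTTop]

theorem bessel {k : PontryaginDual G → ℝ} (hk : CC k) (hk1 : ∀ a, k a ≤ 1) :
    ∃ c : ℝ, 0 ≤ c ∧ ∀ U : G → ℝ, CC U →
      ∫ a, k a * ‖ft μ U a‖ ^ 2 ∂ν ≤ c * ∫ x, U x * U x ∂μ := by
  obtain ⟨K₁, hK₁, hK₁'⟩ := exists_compact_mem_nhds (1 : PontryaginDual G)
  obtain ⟨v, hv, hv1, hv2⟩ := exists_conc μ hK₁' (δ := 1 / 2) (by norm_num)
  obtain ⟨k', hk', hk'1, -, hk'3⟩ := exists_bump (K := tsupport k * K₁⁻¹) (V := univ)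
    (IsCompact.mul hk.supp hK₁.inv) (by simp)
  have hvv := cor_cc μ hv hv
  obtain ⟨u, w, hu, hw, -, hw1, h1, h2, h3, h4⟩ := folner μ hvv.supp (ε := 1) one_pos
  have hww := cor_cc μ hw hw
  set L := ∫ y, u y * u y ∂μ with hL
  have hB0 : 0 ≤ (∫ a, k' a ∂ν) * ∫ x, cor μ w w x ∂μ :=
    mul_nonneg (hk'.int_nonneg ν) (hww.int_nonneg μ)
  refine ⟨2 * ((∫ a, k' a ∂ν) * ∫ x, cor μ w w x ∂μ) / L, by positivity, fun U hU => ?_⟩
  have hUU := cor_cc μ hU hU
  have hkU : CC fun a => k a * ‖ft μ U a‖ ^ 2 := by simpa using cc_weight μ hk hU 1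
  set J := ∫ a, k a * ‖ft μ U a‖ ^ 2 ∂ν with hJ
  have hJ0 : 0 ≤ J := hkU.int_nonneg ν
  have hcv : Continuous fun x => (cor μ v v x : ℂ) := Complex.continuous_ofReal.comp hvv.cont
  have hcU : Continuous fun x => (cor μ U U x : ℂ) := Complex.continuous_ofReal.comp hUU.cont
  have hP := posP μ (F := fun x => (J : ℂ) * (cor μ v v x : ℂ) - chk ν k' x * (cor μ U U x : ℂ))
    ((continuous_const.mul hcv).sub ((cont_chk ν hk').mul hcU))
    (HasCompactSupport.sub (hvv.supp.comp_left Complex.ofReal_zero).mul_left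
      (hUU.supp.comp_left Complex.ofReal_zero).mul_left) (t := J / 4) (by positivity)
    (by
      intro χ
      have i1 : Integrable (fun x => (J : ℂ) * (cor μ v v x : ℂ) * (χ x : ℂ)) μ := by
        have := integrable_c μ (F := fun x => (J : ℂ) * (χ x : ℂ))
          (continuous_const.mul (cont_char χ)) hvv
        refine this.congr (Eventually.of_forall fun x => ?_)
        ring
      have i2 : Integrable (fun x => chk ν k' x * (cor μ U U x : ℂ) * (χ x : ℂ)) μ := by
        have := integrable_c μ (F := fun x => chk ν k' x * (χ x : ℂ))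
          ((cont_chk ν hk').mul (cont_char χ)) hUU
        refine this.congr (Eventually.of_forall fun x => ?_)
        ring
      simp only [sub_mul]
      rw [integral_sub i1 i2, ft_chk_cor μ ν hk' hU]
      simp only [mul_assoc]
      rw [integral_const_mul]
      have e1 : ∫ x, (cor μ v v x : ℂ) * (χ x : ℂ) ∂μ = ((‖ft μ v χ‖ ^ 2 : ℝ) : ℂ) :=
        ft_cor_self μ hv χ
      rw [e1, ← Complex.ofReal_mul, ← Complex.ofReal_sub, Complex.ofReal_re]
      have e2 := (cc_weight μ hk' hU χ).int_nonneg ν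
      by_cases hχ : χ ∈ K₁
      · have e3 : J ≤ ∫ a, k' a * ‖ft μ U (a * χ)‖ ^ 2 ∂ν := by
          rw [hJ, ← integral_mul_left_eq_self (fun a => k a * ‖ft μ U a‖ ^ 2) χ]
          apply integral_mono ((hkU.transl χ).integrable ν) ((cc_weight μ hk' hU χ).integrable ν)
          intro a
          simp only [mul_comm χ a]
          apply mul_le_mul_of_nonneg_right _ (by positivity)
          by_cases h0 : k (a * χ) = 0
          · rw [h0]; exact hk'.nonneg a
          · rw [hk'1 a ⟨a * χ, subset_tsupport _ h0, χ⁻¹, by simpa using hχ, by simp⟩]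
            exact hk1 _
        have e4 : ‖ft μ v χ‖ ≤ 1 := hv1 ▸ norm_ft_le μ hv χ
        have e5 : ‖ft μ v χ‖ ^ 2 ≤ 1 := by nlinarith [norm_nonneg (ft μ v χ)]
        nlinarith
      · have e4 := hv2 χ hχ
        have e5 : ‖ft μ v χ‖ ^ 2 ≤ 1 / 4 := by nlinarith [norm_nonneg (ft μ v χ)]
        nlinarith)
    hw.cont hw.supp
  have i1 : Integrable (fun x => (J : ℂ) * (cor μ v v x : ℂ) * (cor μ w w x : ℂ)) μ :=
    integrable_c μ (continuous_const.mul hcv) hww
  have i2 : Integrable (fun x => chk ν k' x * (cor μ U U x : ℂ) * (cor μ w w x : ℂ)) μ :=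
    integrable_c μ ((cont_chk ν hk').mul hcU) hww
  simp only [← cor_apply, sub_mul] at hP
  rw [integral_sub i1 i2, Complex.sub_re] at hP
  have e1 : (∫ x, (J : ℂ) * (cor μ v v x : ℂ) * (cor μ w w x : ℂ) ∂μ).re =
      J * ∫ x, cor μ v v x * cor μ w w x ∂μ := by
    rw [← integral_const_mul, ← Complex.ofReal_re (∫ x, J * (cor μ v v x * cor μ w w x) ∂μ),
      ← integral_complex_ofReal (f := fun x => J * (cor μ v v x * cor μ w w x))]
    refine congrArg Complex.re (integral_congr_ae (Eventually.of_forall fun x => ?_))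
    push_cast
    ring
  have e2 : L ≤ ∫ x, cor μ v v x * cor μ w w x ∂μ := by
    have e3 : ∫ x, cor μ v v x * L ∂μ = L := by
      rw [integral_mul_const, int_cor μ hv hv, hv1]; ring
    rw [← e3]
    apply integral_mono ((hvv.integrable μ).mul_const L)
      ((hvv.mul hww.cont hww.nonneg).integrable μ)
    intro x
    by_cases hx : cor μ v v x = 0
    · simp [hx]
    · exact mul_le_mul_of_nonneg_left
        (le_cor μ hu hw hw (h1 x (subset_tsupport _ hx)) h2) (hvv.nonneg x)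
  have e3 : (∫ x, chk ν k' x * (cor μ U U x : ℂ) * (cor μ w w x : ℂ) ∂μ).re ≤
      (∫ a, k' a ∂ν) * (∫ x, U x * U x ∂μ) * ∫ x, cor μ w w x ∂μ := by
    refine (Complex.re_le_norm _).trans ?_
    rw [← integral_const_mul]
    refine norm_integral_le_of_norm_le ((hww.integrable μ).const_mul _)
      (Eventually.of_forall fun x => ?_)
    rw [norm_mul, norm_mul, Complex.norm_real, Complex.norm_real,
      Real.norm_of_nonneg (hUU.nonneg x), Real.norm_of_nonneg (hww.nonneg x)]
    exact mul_le_mul_of_nonneg_right (mul_le_mul (norm_chk_le ν hk' x) (cor_le μ hU x)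
      (hUU.nonneg x) (hk'.int_nonneg ν)) (hww.nonneg x)
  have e4 : ∫ y, w y * w y ∂μ ≤ 2 * L := by
    have := int_sq_le μ hw hw1
    linarith
  rw [e1] at hP
  have e5 : J * L ≤ J * ∫ x, cor μ v v x * cor μ w w x ∂μ := mul_le_mul_of_nonneg_left e2 hJ0
  have e6 : J / 4 * ∫ y, w y * w y ∂μ ≤ J / 4 * (2 * L) :=
    mul_le_mul_of_nonneg_left e4 (by positivity)
  rw [div_mul_eq_mul_div, le_div_iff₀ h3]
  nlinarith

theorem upper {K : Set (PontryaginDual G)} (hK : K ∈ 𝓝 (1 : PontryaginDual G)) :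
    ∃ h : PontryaginDual G → ℝ, CC h ∧ (∀ a, h a ≤ 1) ∧ (∀ a ∉ K, h a = 0) ∧
      ∃ N : Set G, IsCompact N ∧ ∃ c : ℝ, 0 ≤ c ∧ ∀ (Z : G → ℝ) (L t : ℝ), CC Z → 0 ≤ t →
        (∀ x ∈ N, L ≤ cor μ Z Z x) → (∀ χ, ∫ a, h a * ‖ft μ Z (a * χ)‖ ^ 2 ∂ν ≤ t) →
        L ≤ c * t := by
  obtain ⟨h, hh, hh1, hh2, hh3⟩ := exists_bump (K := {1}) (V := K) isCompact_singleton
    (by simpa using mem_interior_iff_mem_nhds.2 hK)
  have hη : 0 < ∫ a, h a ∂ν := hh.int_pos ν (x := 1) (by rw [hh1 1 rfl]; simp)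
  set η := ∫ a, h a ∂ν with hηd
  have hN₀ : {x : G | η / 2 < (chk ν h x).re} ∈ 𝓝 (1 : G) := by
    refine (isOpen_lt continuous_const (Complex.continuous_re.comp (cont_chk ν hh))).mem_nhds ?_
    show η / 2 < (chk ν h 1).re
    rw [chk_one, Complex.ofReal_re]
    linarith
  obtain ⟨V, hV, hV'⟩ := exists_nhds_split_inv hN₀
  obtain ⟨A, hA1, hA2, hA3⟩ := local_compact_nhds hV
  obtain ⟨w, hw, hw1, hw2, -⟩ := exists_bump (K := {1}) (V := A) isCompact_singleton
    (by simpa using mem_interior_iff_mem_nhds.2 hA1)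
  have hw0 : 0 < ∫ x, w x ∂μ := hw.int_pos μ (x := 1) (by rw [hw1 1 rfl]; simp)
  have hww := cor_cc μ hw hw
  have hsq : 0 ≤ ∫ y, w y * w y ∂μ := (hw.mul hw.cont hw.nonneg).int_nonneg μ
  refine ⟨h, hh, hh3, hh2, A * ((fun y => (id y)⁻¹) '' A), hA3.mul (hA3.image (by fun_prop)),
    (∫ y, w y * w y ∂μ) / (η / 2 * ((∫ x, w x ∂μ) * ∫ x, w x ∂μ)), by positivity, ?_⟩
  intro Z L t hZ ht hL hF
  have hZZ := cor_cc μ hZ hZ
  have hcZ : Continuous fun x => (cor μ Z Z x : ℂ) := Complex.continuous_ofReal.comp hZZ.cont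
  have hP := posP μ (F := fun x => chk ν h x * (cor μ Z Z x : ℂ)) ((cont_chk ν hh).mul hcZ)
    (hZZ.supp.comp_left Complex.ofReal_zero).mul_left ht
    (fun χ => by rw [ft_chk_cor μ ν hh hZ, Complex.ofReal_re]; exact hF χ) hw.cont hw.supp
  simp only [← cor_apply] at hP
  have i2 : Integrable (fun x => chk ν h x * (cor μ Z Z x : ℂ) * (cor μ w w x : ℂ)) μ :=
    integrable_c μ ((cont_chk ν hh).mul hcZ) hww
  have e1 : η / 2 * L * ∫ x, cor μ w w x ∂μ ≤
      (∫ x, chk ν h x * (cor μ Z Z x : ℂ) * (cor μ w w x : ℂ) ∂μ).re := by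
    have e2 := integral_re i2
    simp only [RCLike.re_to_complex] at e2
    rw [← e2, ← integral_const_mul]
    apply integral_mono ((hww.integrable μ).const_mul _) i2.re
    intro x
    simp only [RCLike.re_to_complex, Complex.mul_re, Complex.ofReal_re, Complex.ofReal_im,
      mul_zero, sub_zero]
    by_cases hx : x ∈ A * ((fun y => (id y)⁻¹) '' A)
    · apply mul_le_mul_of_nonneg_right _ (hww.nonneg x)
      have e3 := hL x hx
      obtain ⟨a, ha, _, ⟨b, hb, rfl⟩, rfl⟩ := hx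
      have e4 : η / 2 < (chk ν h (a * (id b)⁻¹)).re := by
        have := hV' a (hA2 ha) b (hA2 hb)
        rw [div_eq_mul_inv a b] at this
        exact this
      have e5 := hZZ.nonneg (a * (id b)⁻¹)
      simp only at e3 ⊢
      nlinarith
    · have : cor μ w w x = 0 := stp_zero μ hw2 hw2 hx
      simp [this]
  rw [int_cor μ hw hw] at e1
  rw [div_mul_eq_mul_div, le_div_iff₀ (by positivity)]
  nlinarith

end Pool.Agent.H694Z.Br
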