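import Mathlib

set_option autoImplicit false
set_option linter.unusedSectionVars false

namespace Pool.Agent.H694Z.Br

open MeasureTheory Filter Topology Set
open scoped Pointwise

/-- continuous, compactly supported, nonnegative -/
structure CC {X : Type} [TopologicalSpace X] (f : X → ℝ) : Prop where
  cont : Continuous f
  supp : HasCompactSupport f
  nonneg : ∀ x, 0 ≤ f x

variable {G : Type} [CommGroup G] [TopologicalSpace G] [IsTopologicalGroup G]
  [LocallyCompactSpace G] [T2Space G] [MeasurableSpace G] [BorelSpace G]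
  (μ : Measure G) [μ.IsHaarMeasure]

lemma CC.integrable {f : G → ℝ} (hf : CC f) : Integrable f μ :=
  hf.cont.integrable_of_hasCompactSupport hf.supp

lemma CC.mul {X : Type} [TopologicalSpace X] {f g : X → ℝ} (hf : CC f) (hg : Continuous g)
    (hg' : ∀ x, 0 ≤ g x) : CC (fun x => f x * g x) :=
  ⟨hf.cont.mul hg, hf.supp.mul_right, fun x => mul_nonneg (hf.nonneg x) (hg' x)⟩

lemma CC.transl {f : G → ℝ} (hf : CC f) (c : G) : CC (fun x => f (c * x)) :=
  ⟨hf.cont.comp (by fun_prop), hf.supp.comp_homeomorph (Homeomorph.mulLeft c),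
    fun _ => hf.nonneg _⟩

lemma CC.int_nonneg {f : G → ℝ} (hf : CC f) : 0 ≤ ∫ x, f x ∂μ := integral_nonneg hf.nonneg

lemma cont_eval : Continuous fun p : PontryaginDual G × G => (p.1 p.2 : ℂ) := by
  have : Continuous fun p : (G →ₜ* Circle) × G => p.1 p.2 := continuous_eval
  exact continuous_subtype_val.comp this

lemma cont_char (χ : PontryaginDual G) : Continuous fun x => (χ x : ℂ) :=
  continuous_subtype_val.comp (map_continuous χ)

lemma dual_mul_apply (a b : PontryaginDual G) (x : G) :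
    ((a * b) x : ℂ) = (a x : ℂ) * (b x : ℂ) := rfl

/-- Fourier transform -/
noncomputable def ft (f : G → ℝ) (χ : PontryaginDual G) : ℂ := ∫ x, (f x : ℂ) * (χ x : ℂ) ∂μ

lemma ft_one (f : G → ℝ) : ft μ f 1 = ((∫ x, f x ∂μ : ℝ) : ℂ) := by
  rw [ft, ← integral_complex_ofReal]
  simp

lemma norm_ft_le {f : G → ℝ} (hf : CC f) (χ : PontryaginDual G) : ‖ft μ f χ‖ ≤ ∫ x, f x ∂μ := by
  refine (norm_integral_le_integral_norm _).trans (le_of_eq ?_)
  congr 1
  ext x
  rw [norm_mul, Circle.norm_coe, mul_one, Complex.norm_real, Real.norm_of_nonneg (hf.nonneg x)]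

lemma cont_ft {f : G → ℝ} (hf : CC f) : Continuous (ft μ f) := by
  rw [← continuousOn_univ]
  apply continuousOn_integral_of_compact_support (k := tsupport f) hf.supp
  · apply Continuous.continuousOn
    show Continuous fun p : PontryaginDual G × G => (f p.2 : ℂ) * (p.1 p.2 : ℂ)
    exact (Complex.continuous_ofReal.comp (hf.cont.comp continuous_snd)).mul cont_eval
  · intro p x _ hx
    rw [image_eq_zero_of_notMem_tsupport hx]
    simp

lemma ft_transl (f : G → ℝ) (c : G) (χ : PontryaginDual G) :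
    ∫ x, (f (x * c) : ℂ) * (χ x : ℂ) ∂μ = ft μ f χ * (χ c⁻¹ : ℂ) := by
  rw [ft, ← integral_mul_const,
    ← integral_mul_left_eq_self (fun x => (f (x * c) : ℂ) * (χ x : ℂ)) c⁻¹]
  congr 1
  ext x
  rw [map_mul, Circle.coe_mul, mul_comm c⁻¹ x, inv_mul_cancel_right]
  ring

/-- generalized convolution -/
noncomputable def stp (ψ : G → G) (u s : G → ℝ) (x : G) : ℝ := ∫ y, s (x * ψ y) * u y ∂μ

lemma stp_zero {ψ : G → G} {u s : G → ℝ} {A B : Set G} (hs : ∀ x ∉ A, s x = 0)
    (hu : ∀ y ∉ B, u y = 0) {x : G} (hx : x ∉ A * ((fun y => (ψ y)⁻¹) '' B)) :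
    stp μ ψ u s x = 0 := by
  have : ∀ y, s (x * ψ y) * u y = 0 := by
    intro y
    by_contra h
    have h1 : s (x * ψ y) ≠ 0 := left_ne_zero_of_mul h
    have h2 : u y ≠ 0 := right_ne_zero_of_mul h
    apply hx
    refine ⟨x * ψ y, ?_, (ψ y)⁻¹, ⟨y, ?_, rfl⟩, by simp⟩
    · by_contra h3; exact h1 (hs _ h3)
    · by_contra h3; exact h2 (hu _ h3)
  simp [stp, this]

lemma stp_cc {ψ : G → G} (hψ : Continuous ψ) {u s : G → ℝ} (hu : CC u) (hs : CC s) :
    CC (stp μ ψ u s) := by
  refine ⟨?_, ?_, fun x => integral_nonneg fun y => mul_nonneg (hs.nonneg _) (hu.nonneg _)⟩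
  · rw [← continuousOn_univ]
    apply continuousOn_integral_of_compact_support (k := tsupport u) hu.supp
    · apply Continuous.continuousOn
      show Continuous fun p : G × G => s (p.1 * ψ p.2) * u p.2
      have := hs.cont
      have := hu.cont
      fun_prop
    · intro p x _ hx
      rw [image_eq_zero_of_notMem_tsupport hx, mul_zero]
  · refine HasCompactSupport.intro (K := tsupport s * ((fun y => (ψ y)⁻¹) '' tsupport u))
      (IsCompact.mul hs.supp (IsCompact.image hu.supp (by fun_prop))) fun x hx => ?_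
    exact stp_zero μ (fun _ h => image_eq_zero_of_notMem_tsupport h)
      (fun _ h => image_eq_zero_of_notMem_tsupport h) hx

lemma ft_stp {ψ : G → G} (hψ : Continuous ψ) {u s : G → ℝ} (hu : CC u) (hs : CC s)
    (χ : PontryaginDual G) :
    ft μ (stp μ ψ u s) χ = ft μ s χ * ∫ y, (u y : ℂ) * (χ (ψ y)⁻¹ : ℂ) ∂μ := by
  have h1 : ft μ (stp μ ψ u s) χ =
      ∫ x, ∫ y, (s (x * ψ y) : ℂ) * (χ x : ℂ) * (u y : ℂ) ∂μ ∂μ := by
    rw [ft]
    congr 1
    ext x
    rw [stp, ← integral_complex_ofReal, ← integral_mul_const]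
    congr 1
    ext y
    push_cast
    ring
  rw [h1, integral_integral_swap_of_hasCompactSupport, ← integral_const_mul]
  · congr 1
    ext y
    rw [integral_mul_const, ft_transl]
    ring
  · show Continuous fun p : G × G => (s (p.1 * ψ p.2) : ℂ) * (χ p.1 : ℂ) * (u p.2 : ℂ)
    have := hs.cont
    have := hu.cont
    have := cont_char χ
    fun_prop
  · refine HasCompactSupport.intro
      (K := (tsupport s * ((fun y => (ψ y)⁻¹) '' tsupport u)) ×ˢ tsupport u)
      ((IsCompact.mul hs.supp (IsCompact.image hu.supp (by fun_prop))).prod hu.supp) ?_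
    rintro ⟨x, y⟩ hx
    show (s (x * ψ y) : ℂ) * (χ x : ℂ) * (u y : ℂ) = 0
    by_contra h
    have h1 : s (x * ψ y) ≠ 0 := fun h0 => h (by simp [h0])
    have h2 : u y ≠ 0 := fun h0 => h (by simp [h0])
    exact hx ⟨⟨x * ψ y, subset_tsupport _ h1, (ψ y)⁻¹, ⟨y, subset_tsupport _ h2, rfl⟩, by simp⟩,
      subset_tsupport _ h2⟩

lemma stp_integrand_cc {ψ : G → G} (hψ : Continuous ψ) {u s : G → ℝ} (hu : CC u) (hs : CC s)
    (x : G) : CC fun y => s (x * ψ y) * u y := by
  have := hu.mul (g := fun y => s (x * ψ y)) (hs.cont.comp (by fun_prop)) (fun _ => hs.nonneg _)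
  simpa only [mul_comm] using this

lemma stp_mono {ψ : G → G} (hψ : Continuous ψ) (hψ' : ∀ y z, ψ (y * z) = ψ y * ψ z)
    {u s u' s' : G → ℝ} (hu : CC u) (hs : CC s) (hu' : CC u') (hs' : CC s') {a c : G}
    (h1 : ∀ x, s x ≤ s' (a * x)) (h2 : ∀ y, u y ≤ u' (c * y)) (x : G) :
    stp μ ψ u s x ≤ stp μ ψ u' s' (a * (ψ c)⁻¹ * x) := by
  unfold stp
  rw [← integral_mul_left_eq_self (fun y => s' (a * (ψ c)⁻¹ * x * ψ y) * u' y) c]
  apply integral_mono ((stp_integrand_cc hψ hu hs x).integrable μ)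
    (((stp_integrand_cc hψ hu' hs' _).transl c).integrable μ)
  intro y
  have h3 : a * (ψ c)⁻¹ * x * ψ (c * y) = a * (x * ψ y) := by
    rw [hψ']
    simp only [mul_assoc, mul_left_comm x (ψ c), inv_mul_cancel_left]
  simp only [h3]
  exact mul_le_mul (h1 _) (h2 _) (hu.nonneg _) (hs'.nonneg _)

/-- correlation -/
noncomputable def cor (f g : G → ℝ) : G → ℝ := stp μ id f g

lemma cor_apply (f g : G → ℝ) (x : G) : cor μ f g x = ∫ y, g (x * y) * f y ∂μ := rfl

lemma cor_cc {f g : G → ℝ} (hf : CC f) (hg : CC g) : CC (cor μ f g) :=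
  stp_cc μ continuous_id hf hg

lemma ft_cor {f g : G → ℝ} (hf : CC f) (hg : CC g) (χ : PontryaginDual G) :
    ft μ (cor μ f g) χ = ft μ g χ * (starRingEnd ℂ) (ft μ f χ) := by
  rw [cor, ft_stp μ continuous_id hf hg, ft, ft, ← integral_conj]
  congr 2
  ext y
  simp only [id_eq, map_inv, Circle.coe_inv_eq_conj, map_mul, Complex.conj_ofReal]

lemma ft_cor_self {f : G → ℝ} (hf : CC f) (χ : PontryaginDual G) :
    ft μ (cor μ f f) χ = ((‖ft μ f χ‖ ^ 2 : ℝ) : ℂ) := by
  rw [ft_cor μ hf hf, Complex.mul_conj, Complex.normSq_eq_norm_sq]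

lemma int_cor {f g : G → ℝ} (hf : CC f) (hg : CC g) :
    ∫ x, cor μ f g x ∂μ = (∫ x, g x ∂μ) * ∫ x, f x ∂μ := by
  have := ft_cor μ hf hg 1
  rw [ft_one, ft_one, ft_one, Complex.conj_ofReal] at this
  exact_mod_cast this

lemma cor_le {f : G → ℝ} (hf : CC f) (x : G) : cor μ f f x ≤ ∫ y, f y * f y ∂μ := by
  have h1 : CC fun y => f y * f y := hf.mul hf.cont hf.nonneg
  have h2 : ∫ y, f (x * y) * f (x * y) ∂μ = ∫ y, f y * f y ∂μ :=
    integral_mul_left_eq_self (fun y => f y * f y) x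
  have h3 : ∫ y, 2 * (f (x * y) * f y) ∂μ ≤ ∫ y, (f (x * y) * f (x * y) + f y * f y) ∂μ := by
    apply integral_mono (((stp_integrand_cc continuous_id hf hf x).integrable μ).const_mul 2)
      (((h1.transl x).integrable μ).add (h1.integrable μ))
    intro y
    simp only [id_eq, Pi.add_apply]
    nlinarith [sq_nonneg (f (x * y) - f y)]
  rw [integral_const_mul, integral_add ((h1.transl x).integrable μ) (h1.integrable μ), h2] at h3
  rw [cor_apply]
  linarith

lemma le_cor {f g f' : G → ℝ} (hf : CC f) (hg : CC g) (hf' : CC f') {x : G}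
    (h1 : ∀ y, f y ≤ g (x * y)) (h2 : ∀ y, f y ≤ f' y) :
    ∫ y, f y * f y ∂μ ≤ cor μ f' g x := by
  rw [cor_apply]
  apply integral_mono ((hf.mul hf.cont hf.nonneg).integrable μ)
    ((stp_integrand_cc continuous_id hf' hg x).integrable μ)
  intro y
  exact mul_le_mul (h1 y) (h2 y) (hf.nonneg _) (hg.nonneg _)

/-- lower bound on a compact set gives a lower bound for the integral -/
lemma meas_mul_le_int {f : G → ℝ} (hf : CC f) {T : Set G} (hT : IsCompact T) {L : ℝ}
    (h : ∀ x ∈ T, L ≤ f x) : μ.real T * L ≤ ∫ x, f x ∂μ := by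
  calc μ.real T * L = ∫ _ in T, L ∂μ := by simp
    _ ≤ ∫ x in T, f x ∂μ := by
        apply setIntegral_mono_on (integrableOn_const hT.measure_ne_top)
          (hf.integrable μ).integrableOn hT.measurableSet h
    _ ≤ _ := setIntegral_le_integral (hf.integrable μ) (Eventually.of_forall hf.nonneg)

lemma int_le_meas {f : G → ℝ} (hf : CC f) {T : Set G} (hT : IsCompact T)
    (h : ∀ x ∉ T, f x = 0) (h1 : ∀ x, f x ≤ 1) : ∫ x, f x ∂μ ≤ μ.real T := by
  rw [← setIntegral_eq_integral_of_forall_compl_eq_zero h]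
  calc ∫ x in T, f x ∂μ ≤ ∫ _ in T, (1 : ℝ) ∂μ :=
        setIntegral_mono_on (hf.integrable μ).integrableOn (integrableOn_const hT.measure_ne_top)
          hT.measurableSet fun x _ => h1 x
    _ = _ := by simp

lemma cauchy_schwarz {f : G → ℝ} (hf : CC f) {T : Set G} (hT : IsCompact T)
    (h : ∀ x ∉ T, f x = 0) : (∫ x, f x ∂μ) ^ 2 ≤ μ.real T * ∫ x, f x * f x ∂μ := by
  have h1 : CC fun y => f y * f y := hf.mul hf.cont hf.nonneg
  have key : ∀ l : ℝ, 2 * l * ∫ x, f x ∂μ ≤ ∫ x, f x * f x ∂μ + l ^ 2 * μ.real T := by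
    intro l
    rw [← setIntegral_eq_integral_of_forall_compl_eq_zero h,
      ← setIntegral_eq_integral_of_forall_compl_eq_zero (s := T) (f := fun x => f x * f x)
        (fun x hx => by simp [h x hx])]
    have h2 : l ^ 2 * μ.real T = ∫ _ in T, l ^ 2 ∂μ := by simp [mul_comm]
    rw [h2, ← integral_const_mul, ← integral_add (h1.integrable μ).integrableOn
      (integrableOn_const hT.measure_ne_top)]
    apply integral_mono ((hf.integrable μ).integrableOn.const_mul _)
      ((h1.integrable μ).integrableOn.add (integrableOn_const hT.measure_ne_top))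
    intro x
    simp only [Pi.add_apply]
    nlinarith [sq_nonneg (f x - l)]
  rcases (measureReal_nonneg (μ := μ) (s := T)).eq_or_lt with h0 | h0
  · have h3 : ∫ x, f x ∂μ = 0 := by
      rw [← setIntegral_eq_integral_of_forall_compl_eq_zero h]
      apply setIntegral_measure_zero
      rcases (ENNReal.toReal_eq_zero_iff _).1 h0.symm with h4 | h4
      · exact h4
      · exact absurd h4 hT.measure_ne_top
    rw [h3, ← h0]; simp
  · have h3 := key ((∫ x, f x ∂μ) / μ.real T)
    have h4 := mul_le_mul_of_nonneg_left h3 h0.le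
    have h5 : μ.real T * (2 * ((∫ x, f x ∂μ) / μ.real T) * ∫ x, f x ∂μ) =
        2 * (∫ x, f x ∂μ) ^ 2 := by field_simp
    have h6 : μ.real T * (∫ x, f x * f x ∂μ + ((∫ x, f x ∂μ) / μ.real T) ^ 2 * μ.real T) =
        μ.real T * ∫ x, f x * f x ∂μ + (∫ x, f x ∂μ) ^ 2 := by field_simp
    rw [h5, h6] at h4
    linarith

section iter
variable (φ : G →ₜ* G)

/-- trajectory -/
def traj (C : Set G) (n : ℕ) : Set G := ∏ i ∈ Finset.range n, (⇑φ)^[i] '' C

lemma traj_succ (C : Set G) (n : ℕ) : traj φ C (n + 1) = traj φ C n * ((⇑φ)^[n] '' C) :=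
  Finset.prod_range_succ _ _

lemma traj_zero (C : Set G) : traj φ C 0 = {1} := rfl

lemma cont_iter (n : ℕ) : Continuous (⇑φ)^[n] := (map_continuous φ).iterate n

lemma isCompact_traj {C : Set G} (hC : IsCompact C) (n : ℕ) : IsCompact (traj φ C n) := by
  induction n with
  | zero => exact isCompact_singleton
  | succ n ih => rw [traj_succ]; exact ih.mul (hC.image (cont_iter φ n))

lemma traj_mono {B C : Set G} (h : B ⊆ C) (n : ℕ) : traj φ B n ⊆ traj φ C n := by
  induction n with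
  | zero => exact subset_rfl
  | succ n ih => rw [traj_succ, traj_succ]; exact Set.mul_subset_mul ih (image_mono h)

lemma mul_traj_subset {A B C : Set G} (h1 : A * B ⊆ C) (h2 : B ⊆ C) (n : ℕ) :
    A * traj φ B (n + 1) ⊆ traj φ C (n + 1) := by
  induction n with
  | zero =>
    simp only [traj, zero_add, Finset.range_one, Finset.prod_singleton, Function.iterate_zero,
      image_id]
    exact h1
  | succ n ih =>
    rw [traj_succ, traj_succ φ C, ← mul_assoc]
    exact Set.mul_subset_mul ih (image_mono h2)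

lemma subset_traj {C : Set G} (h : (1 : G) ∈ C) (n : ℕ) : C ⊆ traj φ C (n + 1) := by
  induction n with
  | zero => simp [traj]
  | succ n ih =>
    rw [traj_succ]
    intro x hx
    exact ⟨x, ih hx, 1, ⟨1, h, iterate_map_one φ _⟩, by simp⟩

lemma dual_iter (χ : PontryaginDual G) (n : ℕ) (x : G) :
    ((⇑(PontryaginDual.map φ))^[n] χ) x = χ ((⇑φ)^[n] x) := by
  induction n generalizing x with
  | zero => rfl
  | succ n ih =>
    rw [Function.iterate_succ_apply', PontryaginDual.map_apply, ih, Function.iterate_succ_apply]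

/-- iterated convolution -/
noncomputable def itZ (u s : G → ℝ) : ℕ → G → ℝ
  | 0 => s
  | n + 1 => stp μ (fun y => ((⇑φ)^[n] y)⁻¹) u (itZ u s n)

lemma itZ_cc {u s : G → ℝ} (hu : CC u) (hs : CC s) (n : ℕ) : CC (itZ μ φ u s n) := by
  induction n with
  | zero => exact hs
  | succ n ih => exact stp_cc μ (cont_iter φ n).inv hu ih

lemma itZ_zero {u s : G → ℝ} {A B : Set G} (hs : ∀ x ∉ A, s x = 0) (hu : ∀ y ∉ B, u y = 0)
    (n : ℕ) : ∀ x ∉ A * traj φ B n, itZ μ φ u s n x = 0 := by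
  induction n with
  | zero =>
    intro x hx
    rw [traj_zero, Set.mul_singleton] at hx
    apply hs
    simpa using hx
  | succ n ih =>
    intro x hx
    apply stp_zero μ ih hu
    rw [traj_succ, ← mul_assoc] at hx
    simpa only [inv_inv] using hx

lemma ft_itZ {u s : G → ℝ} (hu : CC u) (hs : CC s) (χ : PontryaginDual G) (n : ℕ) :
    ft μ (itZ μ φ u s n) χ =
      ft μ s χ * ∏ i ∈ Finset.range n, ft μ u ((⇑(PontryaginDual.map φ))^[i] χ) := by
  induction n with
  | zero => simp [itZ]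
  | succ n ih =>
    rw [Finset.prod_range_succ, ← mul_assoc, ← ih, itZ,
      ft_stp μ (ψ := fun y => ((⇑φ)^[n] y)⁻¹) (cont_iter φ n).inv hu (itZ_cc μ φ hu hs n)]
    congr 1
    rw [ft]
    simp only [inv_inv, dual_iter]

lemma int_itZ {u s : G → ℝ} (hu : CC u) (hs : CC s) (n : ℕ) :
    ∫ x, itZ μ φ u s n x ∂μ = (∫ x, s x ∂μ) * (∫ x, u x ∂μ) ^ n := by
  have := ft_itZ μ φ hu hs 1 n
  simp only [iterate_map_one, ft_one, Finset.prod_const, Finset.card_range] at this
  exact_mod_cast this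

lemma itZ_mono {u s u' s' : G → ℝ} (hu : CC u) (hs : CC s) (hu' : CC u') (hs' : CC s') {a : G}
    {C : Set G} (h1 : ∀ x, s x ≤ s' (a * x)) (h2 : ∀ c ∈ C, ∀ y, u y ≤ u' (c * y)) (n : ℕ) :
    ∀ t ∈ traj φ C n, ∀ x, itZ μ φ u s n x ≤ itZ μ φ u' s' n (a * t * x) := by
  induction n with
  | zero =>
    intro t ht x
    rw [traj_zero, mem_singleton_iff] at ht
    rw [ht, mul_one]
    exact h1 x
  | succ n ih =>
    intro t ht x
    rw [traj_succ] at ht
    obtain ⟨t, ht, _, ⟨c, hc, rfl⟩, rfl⟩ := ht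
    have := stp_mono μ (ψ := fun y => ((⇑φ)^[n] y)⁻¹) (cont_iter φ n).inv
      (fun y z => by rw [iterate_map_mul, mul_inv]) hu (itZ_cc μ φ hu hs n) hu'
      (itZ_cc μ φ hu' hs' n) (ih t ht) (h2 c hc) x
    simp only [inv_inv] at this
    simp only [← mul_assoc]
    exact this

end iter

end Pool.Agent.H694Z.Br
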