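import Pool.Agent.H694Z.Br.Conv

set_option autoImplicit false
set_option linter.unusedSectionVars false

namespace Pool.Agent.H694Z.Br

open MeasureTheory Filter Topology Set
open scoped Pointwise ENNReal

lemma exists_bump {X : Type} [TopologicalSpace X] [LocallyCompactSpace X] [T2Space X]
    {K V : Set X} (hK : IsCompact K) (hV : K ⊆ interior V) :
    ∃ f : X → ℝ, CC f ∧ (∀ x ∈ K, f x = 1) ∧ (∀ x ∉ V, f x = 0) ∧ ∀ x, f x ≤ 1 := by
  obtain ⟨f, h1, h2, h3, h4⟩ :=
    exists_continuousMap_one_of_isCompact_subset_isOpen hK isOpen_interior hV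
  refine ⟨f, ⟨f.continuous, h2, fun x => (h4 x).1⟩, fun x hx => h1 hx, fun x hx => ?_,
    fun x => (h4 x).2⟩
  exact image_eq_zero_of_notMem_tsupport fun h => hx (interior_subset (h3 h))

variable {G : Type} [CommGroup G] [TopologicalSpace G] [IsTopologicalGroup G]
  [LocallyCompactSpace G] [T2Space G] [MeasurableSpace G] [BorelSpace G]
  (μ : Measure G) [μ.IsHaarMeasure]

lemma exists_cover {A V : Set G} (hA : IsCompact A) (hV : V ∈ 𝓝 (1 : G)) :
    ∃ F : Finset G, ∀ x ∈ A, ∃ f ∈ F, f⁻¹ * x ∈ V := by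
  obtain ⟨F, hF⟩ := hA.elim_finite_subcover (fun f : G => (fun x => f⁻¹ * x) ⁻¹' interior V)
    (fun f => isOpen_interior.preimage (by fun_prop)) (by
      intro x _
      exact mem_iUnion.2 ⟨x, by simpa using mem_interior_iff_mem_nhds.2 hV⟩)
  refine ⟨F, fun x hx => ?_⟩
  have := hF hx
  simp only [mem_iUnion, mem_preimage] at this
  obtain ⟨f, hf, h⟩ := this
  exact ⟨f, hf, interior_subset h⟩

lemma pow_cover {V : Set G} {F : Finset G} (h : ∀ x ∈ V * V, ∃ f ∈ F, f⁻¹ * x ∈ V) (k : ℕ) :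
    ∀ x ∈ V ^ (k + 1), ∃ e : F → ℕ, (∀ f, e f ≤ k) ∧ (∏ f : F, (f : G) ^ e f)⁻¹ * x ∈ V := by
  classical
  induction k with
  | zero =>
    intro x hx
    exact ⟨fun _ => 0, fun _ => le_rfl, by simpa using hx⟩
  | succ k ih =>
    intro x hx
    rw [pow_succ] at hx
    obtain ⟨y, hy, v, hv, rfl⟩ := hx
    obtain ⟨e, he, he'⟩ := ih y hy
    obtain ⟨f, hf, hf'⟩ := h _ ⟨_, he', v, hv, rfl⟩
    refine ⟨fun g => e g + if g = ⟨f, hf⟩ then 1 else 0, fun g => ?_, ?_⟩
    · have := he g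
      dsimp only
      split_ifs <;> omega
    · simp only [pow_add, Finset.prod_mul_distrib]
      have h2 : ∏ g : F, (g : G) ^ (if g = ⟨f, hf⟩ then 1 else 0) = f := by
        rw [Finset.prod_eq_single (⟨f, hf⟩ : F)]
        · simp
        · intro b _ hb; simp [hb]
        · simp
      rw [h2]
      convert hf' using 1
      simp only [mul_inv, mul_assoc, mul_left_comm]

lemma meas_le_card {ι : Type} (S : Finset ι) (f : ι → G) (B X : Set G)
    (h : ∀ x ∈ X, ∃ s ∈ S, (f s)⁻¹ * x ∈ B) : μ X ≤ (S.card : ℝ≥0∞) * μ B := by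
  calc μ X ≤ μ (⋃ s ∈ S, (fun x => (f s)⁻¹ * x) ⁻¹' B) := by
        refine measure_mono ?_
        intro x hx
        obtain ⟨s, hs, hx⟩ := h x hx
        simp only [mem_iUnion, mem_preimage]
        exact ⟨s, hs, hx⟩
    _ ≤ ∑ s ∈ S, μ ((fun x => (f s)⁻¹ * x) ⁻¹' B) := measure_biUnion_finset_le _ _
    _ = _ := by simp only [measure_preimage_mul, Finset.sum_const, nsmul_eq_mul]

lemma isCompact_pow {V : Set G} (hV : IsCompact V) (k : ℕ) : IsCompact (V ^ k) := by
  induction k with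
  | zero => rw [pow_zero]; exact isCompact_singleton
  | succ k ih => rw [pow_succ]; exact ih.mul hV

lemma poly_growth {V : Set G} (hV : IsCompact V) (hV' : V ∈ 𝓝 (1 : G)) :
    ∃ d : ℕ, ∀ k : ℕ, μ.real (V ^ (k + 1)) ≤ ((k : ℝ) + 1) ^ d * μ.real V := by
  classical
  obtain ⟨F, hF⟩ := exists_cover (hV.mul hV) hV'
  refine ⟨F.card, fun k => ?_⟩
  have h1 := meas_le_card μ (Fintype.piFinset fun _ : F => Finset.range (k + 1))
    (fun e => ∏ f : F, (f : G) ^ e f) V (V ^ (k + 1)) (by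
      intro x hx
      obtain ⟨e, he, he'⟩ := pow_cover hF k x hx
      refine ⟨e, ?_, he'⟩
      simp only [Fintype.mem_piFinset, Finset.mem_range]
      intro f
      exact Nat.lt_succ_of_le (he f))
  have h2 := ENNReal.toReal_mono (ENNReal.mul_ne_top (by simp) hV.measure_ne_top) h1
  have h3 : (Fintype.piFinset fun _ : F => Finset.range (k + 1)).card = (k + 1) ^ F.card := by
    simp
  rw [h3, ENNReal.toReal_mul, ENNReal.toReal_natCast] at h2
  push_cast at h2
  exact h2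

lemma slow_growth {V : Set G} (hV : IsCompact V) (hV' : V ∈ 𝓝 (1 : G)) {ε : ℝ} (hε : 0 < ε) :
    ∃ k : ℕ, μ.real (V ^ (k + 4)) ≤ (1 + ε) * μ.real (V ^ (k + 1)) := by
  by_contra hc
  push Not at hc
  obtain ⟨d, hd⟩ := poly_growth μ hV hV'
  have hpos : 0 < μ.real V :=
    ENNReal.toReal_pos (Measure.measure_pos_of_mem_nhds μ hV').ne' hV.measure_ne_top
  have h1 : ∀ j : ℕ, (1 + ε) ^ j * μ.real V ≤ μ.real (V ^ (3 * j + 1)) := by
    intro j
    induction j with
    | zero => simp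
    | succ j ih =>
      have := hc (3 * j)
      have h2 : 3 * (j + 1) + 1 = 3 * j + 4 := by ring
      rw [h2, pow_succ]
      nlinarith
  have h2 : ∀ j : ℕ, 1 ≤ j → 1 / (4 : ℝ) ^ d ≤ (j : ℝ) ^ d / (1 + ε) ^ j := by
    intro j hj
    have h3 := (h1 j).trans (hd (3 * j))
    have h4 : (1 + ε) ^ j ≤ (((3 * j : ℕ) : ℝ) + 1) ^ d := le_of_mul_le_mul_right h3 hpos
    have h5 : (((3 * j : ℕ) : ℝ) + 1) ^ d ≤ (4 * (j : ℝ)) ^ d := by
      have : (1 : ℝ) ≤ j := by exact_mod_cast hj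
      apply pow_le_pow_left₀ (by positivity)
      push_cast
      linarith
    rw [div_le_div_iff₀ (by positivity) (by positivity), one_mul, ← mul_pow, mul_comm]
    exact h4.trans h5
  have h3 := tendsto_pow_const_div_const_pow_of_one_lt d (r := 1 + ε) (by linarith)
  have h4 : 1 / (4 : ℝ) ^ d ≤ 0 := ge_of_tendsto h3 (eventually_atTop.2 ⟨1, h2⟩)
  have : 0 < 1 / (4 : ℝ) ^ d := by positivity
  linarith

lemma pow_subset_interior {V : Set G} (hV' : V ∈ 𝓝 (1 : G)) (k : ℕ) :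
    V ^ k ⊆ interior (V ^ (k + 1)) := by
  intro x hx
  rw [mem_interior_iff_mem_nhds, pow_succ]
  have : (fun y => x⁻¹ * y) ⁻¹' V ∈ 𝓝 x :=
    (by fun_prop : Continuous fun y => x⁻¹ * y).continuousAt.preimage_mem_nhds (by simpa using hV')
  filter_upwards [this] with y hy
  exact ⟨x, hx, _, hy, by simp⟩

/-- Folner pair -/
theorem folner {D : Set G} (hD : IsCompact D) {ε : ℝ} (hε : 0 < ε) :
    ∃ u w : G → ℝ, CC u ∧ CC w ∧ (∀ x, u x ≤ 1) ∧ (∀ x, w x ≤ 1) ∧
      (∀ c ∈ D, ∀ y, u y ≤ w (c * y)) ∧ (∀ y, u y ≤ w y) ∧ 0 < ∫ y, u y * u y ∂μ ∧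
      ∫ y, w y ∂μ ≤ (1 + ε) * ∫ y, u y * u y ∂μ := by
  obtain ⟨V₀, h0, h0'⟩ := exists_compact_mem_nhds (1 : G)
  have hV : IsCompact (D ∪ V₀) := hD.union h0
  have hV' : D ∪ V₀ ∈ 𝓝 (1 : G) := mem_of_superset h0' subset_union_right
  set V := D ∪ V₀
  obtain ⟨k, hk⟩ := slow_growth μ hV hV' hε
  obtain ⟨u, hu, hu1, hu2, hu3⟩ :=
    exists_bump (isCompact_pow hV (k + 1)) (pow_subset_interior hV' (k + 1))
  obtain ⟨w, hw, hw1, hw2, hw3⟩ :=
    exists_bump (isCompact_pow hV (k + 3)) (pow_subset_interior hV' (k + 3))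
  have key : ∀ c ∈ V, ∀ y, u y ≤ w (c * y) := by
    intro c hc y
    by_cases hy : y ∈ V ^ (k + 1 + 1)
    · rw [hw1]
      · exact hu3 y
      · rw [pow_succ']
        exact ⟨c, hc, y, hy, rfl⟩
    · rw [hu2 y hy]; exact hw.nonneg _
  have h1 : μ.real (V ^ (k + 1)) * 1 ≤ ∫ y, u y * u y ∂μ :=
    meas_mul_le_int μ (hu.mul hu.cont hu.nonneg) (isCompact_pow hV _)
      (fun x hx => by rw [hu1 x hx]; simp)
  have h2 : 0 < μ.real (V ^ (k + 1)) := by
    refine ENNReal.toReal_pos (Measure.measure_pos_of_mem_nhds μ (x := 1) ?_).ne'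
      (isCompact_pow hV _).measure_ne_top
    exact mem_interior_iff_mem_nhds.1
      (pow_subset_interior hV' k (Set.one_mem_pow (mem_of_mem_nhds hV')))
  refine ⟨u, w, hu, hw, hu3, hw3, fun c hc => key c (Or.inl hc), fun y => ?_, by linarith, ?_⟩
  · simpa using key 1 (mem_of_mem_nhds hV') y
  · have h3 := int_le_meas μ hw (isCompact_pow hV _) hw2 hw3
    refine h3.trans (hk.trans ?_)
    apply mul_le_mul_of_nonneg_left (by linarith) (by linarith)

lemma int_sq_le {u : G → ℝ} (hu : CC u) (h : ∀ x, u x ≤ 1) :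
    ∫ y, u y * u y ∂μ ≤ ∫ y, u y ∂μ := by
  apply integral_mono ((hu.mul hu.cont hu.nonneg).integrable μ) (hu.integrable μ)
  intro y
  have := hu.nonneg y
  have := h y
  simp only
  nlinarith

lemma exists_polar {K : Set (PontryaginDual G)} (hK : K ∈ 𝓝 (1 : PontryaginDual G)) :
    ∃ D : Set G, IsCompact D ∧ ∃ η : ℝ, 0 < η ∧ ∀ χ ∉ K, ∃ c ∈ D, η ≤ ‖(χ c : ℂ) - 1‖ := by
  have h1 : (show Set (G →ₜ* Circle) from K) ∈ 𝓝 (1 : G →ₜ* Circle) := hK
  rw [(ContinuousMonoidHom.isInducing_toContinuousMap G Circle).nhds_eq_comap] at h1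
  obtain ⟨K', h2, h3⟩ := mem_comap.1 h1
  have h4 := nhds_basis_uniformity'
    (x := ContinuousMonoidHom.toContinuousMap (1 : G →ₜ* Circle))
    (Metric.uniformity_basis_dist (α := Circle)).compactConvergenceUniformity
  obtain ⟨⟨D, η⟩, ⟨hD, hη⟩, h5⟩ := h4.mem_iff.1 h2
  refine ⟨D, hD, η, hη, fun χ hχ => ?_⟩
  by_contra hc
  push Not at hc
  apply hχ
  apply h3
  apply h5
  intro x hx
  have := hc x hx
  show dist (1 : Circle) (χ x) < η
  rw [dist_comm]
  show dist (χ x : ℂ) 1 < η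
  rw [dist_eq_norm]
  exact this

/-- a normalized function whose Fourier transform is small off a neighbourhood of `1` -/
theorem exists_conc {K : Set (PontryaginDual G)} (hK : K ∈ 𝓝 (1 : PontryaginDual G)) {δ : ℝ}
    (hδ : 0 < δ) : ∃ v : G → ℝ, CC v ∧ ∫ x, v x ∂μ = 1 ∧ ∀ χ ∉ K, ‖ft μ v χ‖ ≤ δ := by
  obtain ⟨D, hD, η, hη, h⟩ := exists_polar hK
  obtain ⟨u, w, hu, hw, hu1, -, h1, h2, h3, h4⟩ := folner μ hD (ε := δ * η / 2) (by positivity)
  have h5 := int_sq_le μ hu hu1
  set m := ∫ x, u x ∂μ with hm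
  have hm0 : 0 < m := by linarith
  have h6 : ∫ y, w y ∂μ ≤ (1 + δ * η / 2) * m :=
    h4.trans (mul_le_mul_of_nonneg_left h5 (by positivity))
  refine ⟨fun x => u x * m⁻¹, hu.mul continuous_const (fun _ => by positivity), ?_, ?_⟩
  · rw [integral_mul_const, ← hm, mul_inv_cancel₀ hm0.ne']
  · intro χ hχ
    obtain ⟨c, hc, hc'⟩ := h χ hχ
    have h7 : ft μ (fun x => u x * m⁻¹) χ = ft μ u χ * ((m⁻¹ : ℝ) : ℂ) := by
      rw [ft, ft, ← integral_mul_const]
      congr 1
      ext x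
      push_cast
      ring
    have hi : ∀ {f : G → ℝ}, CC f → Integrable (fun x => (f x : ℂ) * (χ x : ℂ)) μ := by
      intro f hf
      apply Continuous.integrable_of_hasCompactSupport
      · exact (Complex.continuous_ofReal.comp hf.cont).mul (cont_char χ)
      · exact (hf.supp.comp_left Complex.ofReal_zero).mul_right
    have huc : CC fun x => u (x * c) := by
      simpa only [mul_comm] using hu.transl c
    have h8 : ft μ u χ * ((χ c⁻¹ : ℂ) - 1) =
        ∫ x, ((u (x * c) - u x : ℝ) : ℂ) * (χ x : ℂ) ∂μ := by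
      rw [mul_sub, ← ft_transl, mul_one, ft, ← integral_sub (hi huc) (hi hu)]
      congr 1
      ext x
      push_cast
      ring
    have h9 : ‖ft μ u χ * ((χ c⁻¹ : ℂ) - 1)‖ ≤
        ∫ x, ((w (c * x) - u (c * x)) + (w (c * x) - u x)) ∂μ := by
      rw [h8]
      refine norm_integral_le_of_norm_le ((((hw.transl c).integrable μ).sub
        ((hu.transl c).integrable μ)).add (((hw.transl c).integrable μ).sub
        (hu.integrable μ))) (Eventually.of_forall fun x => ?_)
      rw [norm_mul, Circle.norm_coe, mul_one, Complex.norm_real, Real.norm_eq_abs, abs_le,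
        mul_comm x c]
      have := h1 c hc x
      have := h2 (c * x)
      constructor <;> linarith
    have hi1 : Integrable (fun x => w (c * x) - u (c * x)) μ :=
      ((hw.transl c).integrable μ).sub ((hu.transl c).integrable μ)
    have hi2 : Integrable (fun x => w (c * x) - u x) μ :=
      ((hw.transl c).integrable μ).sub (hu.integrable μ)
    rw [integral_add hi1 hi2,
      integral_sub ((hw.transl c).integrable μ) ((hu.transl c).integrable μ),
      integral_sub ((hw.transl c).integrable μ) (hu.integrable μ),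
      integral_mul_left_eq_self w c, integral_mul_left_eq_self u c, ← hm, norm_mul] at h9
    have h10 : ‖(χ c⁻¹ : ℂ) - 1‖ = ‖(χ c : ℂ) - 1‖ := by
      rw [map_inv, Circle.coe_inv_eq_conj, ← Complex.norm_conj]
      simp
    rw [h10] at h9
    have h11 : ‖ft μ u χ‖ * η ≤ δ * m * η := by
      have := mul_le_mul_of_nonneg_left hc' (norm_nonneg (ft μ u χ))
      nlinarith
    have h12 := le_of_mul_le_mul_right h11 hη
    rw [h7, norm_mul, Complex.norm_real, Real.norm_of_nonneg (by positivity),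
      ← div_eq_mul_inv, div_le_iff₀ hm0]
    exact h12

section cov
variable (ψ : G →ₜ* G)

/-- cotrajectory -/
def cotraj (K : Set G) (n : ℕ) : Set G := ⋂ i ∈ Finset.range n, (⇑ψ)^[i] ⁻¹' K

lemma mem_cotraj {K : Set G} {n : ℕ} {x : G} :
    x ∈ cotraj ψ K n ↔ ∀ i < n, (⇑ψ)^[i] x ∈ K := by
  simp [cotraj]

lemma cotraj_mono {K K' : Set G} (h : K ⊆ K') (n : ℕ) : cotraj ψ K n ⊆ cotraj ψ K' n :=
  fun _ hx => (mem_cotraj ψ).2 fun i hi => h ((mem_cotraj ψ).1 hx i hi)

lemma cotraj_subset {K : Set G} (n : ℕ) : cotraj ψ K (n + 1) ⊆ K :=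
  fun _ hx => (mem_cotraj ψ).1 hx 0 (Nat.succ_pos n)

lemma isClosed_cotraj {K : Set G} (hK : IsClosed K) (n : ℕ) : IsClosed (cotraj ψ K n) :=
  isClosed_biInter fun i _ => hK.preimage (cont_iter ψ i)

lemma isCompact_cotraj {K : Set G} (hK : IsCompact K) (n : ℕ) :
    IsCompact (cotraj ψ K (n + 1)) :=
  hK.of_isClosed_subset (isClosed_cotraj ψ hK.isClosed _) (cotraj_subset ψ n)

lemma cotraj_mem_nhds {K : Set G} (hK : K ∈ 𝓝 (1 : G)) (n : ℕ) : cotraj ψ K n ∈ 𝓝 (1 : G) := by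
  refine (biInter_finset_mem _).2 fun i _ => ?_
  exact (cont_iter ψ i).continuousAt.preimage_mem_nhds (by rwa [iterate_map_one])

theorem cover_bound {K K' : Set G} (hK : IsClosed K) (hKK : ∀ a ∈ K, ∀ b ∈ K, a⁻¹ * b ∈ K')
    {M : Finset G} (hM : ∀ x ∈ K, ∃ m ∈ M, m⁻¹ * ψ x ∈ K) {p : G → ℝ≥0∞} (hp : Measurable p)
    {δ : ℝ≥0∞} (hp1 : ∀ x, p x ≤ 1) (hp2 : ∀ x ∉ K, p x ≤ δ) (n : ℕ) :
    ∀ (j : ℕ) (E : Set G), MeasurableSet E → (∀ i ≤ j, ∃ b, ∀ a ∈ E, b⁻¹ * (⇑ψ)^[i] a ∈ K) →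
      ∫⁻ a in E, ∏ i ∈ Finset.range n, p ((⇑ψ)^[j + 1 + i] a) ∂μ ≤
        (1 + δ * M.card) ^ n * μ (cotraj ψ K' (j + 1 + n)) := by
  induction n with
  | zero =>
    intro j E _ hE
    simp only [Finset.range_zero, Finset.prod_empty, setLIntegral_one, pow_zero, one_mul, add_zero]
    rcases E.eq_empty_or_nonempty with rfl | ⟨e, he⟩
    · simp
    · rw [← measure_preimage_mul μ e⁻¹ (cotraj ψ K' (j + 1))]
      refine measure_mono fun a ha => ?_
      rw [mem_preimage, mem_cotraj]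
      intro i hi
      obtain ⟨b, hb⟩ := hE i (Nat.lt_succ_iff.1 hi)
      have := hKK _ (hb e he) _ (hb a ha)
      rw [iterate_map_mul, iterate_map_inv]
      convert this using 1
      simp only [mul_inv, inv_inv, mul_assoc, mul_left_comm, mul_inv_cancel_left]
  | succ n ih =>
    intro j E hEm hE
    obtain ⟨b, hb⟩ := hE j le_rfl
    let Q : G → ℝ≥0∞ := fun a => ∏ i ∈ Finset.range n, p ((⇑ψ)^[j + 1 + 1 + i] a)
    have hQ : Measurable Q :=
      Finset.measurable_prod _ fun i _ => hp.comp (cont_iter ψ _).measurable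
    let S : G → Set G := fun c => E ∩ (fun a => c⁻¹ * (⇑ψ)^[j + 1] a) ⁻¹' K
    have hS : ∀ c, MeasurableSet (S c) := fun c =>
      hEm.inter (hK.preimage (continuous_const.mul (cont_iter ψ _))).measurableSet
    have hS' : ∀ c, ∫⁻ a in S c, Q a ∂μ ≤
        (1 + δ * M.card) ^ n * μ (cotraj ψ K' (j + 1 + (n + 1))) := by
      intro c
      have := ih (j + 1) (S c) (hS c) (by
        intro i hi
        rcases Nat.lt_or_eq_of_le hi with h | h
        · obtain ⟨b', hb'⟩ := hE i (Nat.lt_succ_iff.1 h)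
          exact ⟨b', fun a ha => hb' a ha.1⟩
        · exact ⟨c, fun a ha => h ▸ ha.2⟩)
      have h2 : j + 1 + 1 + n = j + 1 + (n + 1) := by ring
      rw [h2] at this
      exact this
    have hpt : ∀ a, E.indicator (fun a => ∏ i ∈ Finset.range (n + 1), p ((⇑ψ)^[j + 1 + i] a)) a ≤
        (S 1).indicator Q a + ∑ m ∈ M, δ * (S (ψ b * m)).indicator Q a := by
      intro a
      by_cases ha : a ∈ E
      · rw [indicator_of_mem ha, Finset.prod_range_succ']
        have h3 : ∏ i ∈ Finset.range n, p ((⇑ψ)^[j + 1 + (i + 1)] a) = Q a := by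
          refine Finset.prod_congr rfl fun i _ => ?_
          congr 2
          ring
        rw [h3, add_zero]
        by_cases h4 : (⇑ψ)^[j + 1] a ∈ K
        · have : a ∈ S 1 := ⟨ha, by simpa using h4⟩
          rw [indicator_of_mem this]
          exact le_trans (mul_le_of_le_one_right' (hp1 _)) le_self_add
        · obtain ⟨m, hm, hm'⟩ := hM _ (hb a ha)
          have h5 : a ∈ S (ψ b * m) := by
            refine ⟨ha, ?_⟩
            rw [mem_preimage, Function.iterate_succ_apply']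
            convert hm' using 1
            simp only [map_mul, map_inv, mul_inv, mul_assoc, mul_left_comm]
          refine le_trans ?_ le_add_self
          refine le_trans ?_ (Finset.single_le_sum
            (f := fun m => δ * (S (ψ b * m)).indicator Q a) (fun _ _ => zero_le) hm)
          simp only [indicator_of_mem h5]
          rw [mul_comm]
          exact mul_le_mul_left (hp2 _ h4) _
      · rw [indicator_of_notMem ha]; exact zero_le
    rw [← lintegral_indicator hEm]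
    refine (lintegral_mono hpt).trans ?_
    rw [lintegral_add_left (hQ.indicator (hS 1)), lintegral_finsetSum _
      (fun m _ => (hQ.indicator (hS _)).const_mul δ), lintegral_indicator (hS 1)]
    have h6 : ∀ m ∈ M, ∫⁻ a, δ * (S (ψ b * m)).indicator Q a ∂μ ≤
        δ * ((1 + δ * M.card) ^ n * μ (cotraj ψ K' (j + 1 + (n + 1)))) := by
      intro m _
      rw [lintegral_const_mul _ (hQ.indicator (hS _)), lintegral_indicator (hS _)]
      exact mul_le_mul_right (hS' _) _
    refine (add_le_add (hS' 1) (Finset.sum_le_sum h6)).trans (le_of_eq ?_)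
    rw [Finset.sum_const, nsmul_eq_mul, pow_succ]
    ring

end cov

end Pool.Agent.H694Z.Br
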