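import Pool.Agent.H694Z.Br.Bessel

set_option autoImplicit false
set_option linter.unusedSectionVars false

namespace Pool.Agent.H694Z.Br

open MeasureTheory Filter Topology Set
open scoped Pointwise ENNReal

variable {G : Type} [CommGroup G] [TopologicalSpace G] [IsTopologicalGroup G]
  [LocallyCompactSpace G] [T2Space G] [MeasurableSpace G] [BorelSpace G]
  [MeasurableSpace (PontryaginDual G)] [BorelSpace (PontryaginDual G)]
  (μ : Measure G) [μ.IsHaarMeasure] (ν : Measure (PontryaginDual G)) [ν.IsHaarMeasure]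
  (φ : G →ₜ* G)

theorem dir1 [μ.InnerRegularCompactLTTop] {C : Set G} (hC : IsCompact C) {s : ℝ} (hs : 1 < s) :
    ∃ K : Set (PontryaginDual G), IsCompact K ∧ K ∈ 𝓝 (1 : PontryaginDual G) ∧ ∃ c : ℝ,
      ∀ n : ℕ, μ.real (traj φ C (n + 1)) * ν.real (cotraj (PontryaginDual.map φ) K (n + 1)) ≤
        c * (s ^ 3) ^ (n + 1) := by
  obtain ⟨u, w, hu, hw, hu1, -, h1, h2, h3, h4⟩ := folner μ hC (ε := s - 1) (by linarith)
  have h5 := int_sq_le μ hu hu1
  set m := ∫ x, u x ∂μ with hm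
  have hm0 : 0 < m := by linarith
  have hs0 : 0 < s := by linarith
  have h6 : ∫ y, w y ∂μ ≤ s * m := by
    refine h4.trans ?_
    rw [add_sub_cancel]
    exact mul_le_mul_of_nonneg_left h5 hs0.le
  have hK₀ : {χ : PontryaginDual G | m / s < ‖ft μ u χ‖} ∈ 𝓝 (1 : PontryaginDual G) := by
    refine (isOpen_lt continuous_const (cont_ft μ hu).norm).mem_nhds ?_
    show m / s < ‖ft μ u 1‖
    rw [ft_one, Complex.norm_real, Real.norm_of_nonneg hm0.le]
    exact div_lt_self hm0 hs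
  obtain ⟨K, hK1, hK2, hK3⟩ := local_compact_nhds hK₀
  obtain ⟨k, hk, hk1, -, hk3⟩ := exists_bump (K := K) (V := univ) hK3 (by simp)
  obtain ⟨c, hc0, hc⟩ := bessel μ ν hk hk3
  refine ⟨K, hK3, hK1, c * s ^ 3, fun n => ?_⟩
  have hU := itZ_cc μ φ hu hu (n + 1)
  have hW := itZ_cc μ φ hw hw (n + 1)
  set U := itZ μ φ u u (n + 1) with hUd
  set W := itZ μ φ w w (n + 1) with hWd
  have e1 : μ.real (traj φ C (n + 1)) * ∫ x, U x * U x ∂μ ≤ ∫ x, cor μ U W x ∂μ := by
    refine meas_mul_le_int μ (cor_cc μ hU hW) (isCompact_traj φ hC _) fun t ht => ?_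
    refine le_cor μ hU hW hU (fun y => ?_) (fun _ => le_rfl)
    have := itZ_mono μ φ hu hu hw hw (a := 1) (C := C) (fun x => by simpa using h2 x) h1 (n + 1)
      t ht y
    simpa using this
  rw [int_cor μ hU hW, hUd, hWd, int_itZ μ φ hu hu, int_itZ μ φ hw hw, ← hm, ← hUd,
    ← pow_succ', ← pow_succ'] at e1
  have e2 : (∫ y, w y ∂μ) ^ (n + 1 + 1) ≤ (s * m) ^ (n + 1 + 1) :=
    pow_le_pow_left₀ (hw.int_nonneg μ) h6 _
  have e3 : ν.real (cotraj (PontryaginDual.map φ) K (n + 1)) * ((m / s) ^ (n + 1 + 1)) ^ 2 ≤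
      ∫ a, k a * ‖ft μ U a‖ ^ 2 ∂ν := by
    have hkU : CC fun a => k a * ‖ft μ U a‖ ^ 2 := by simpa using cc_weight μ hk hU 1
    refine meas_mul_le_int ν hkU (isCompact_cotraj _ hK3 n) fun χ hχ => ?_
    rw [hk1 χ (cotraj_subset _ n hχ), one_mul]
    apply pow_le_pow_left₀ (by positivity)
    rw [hUd, ft_itZ μ φ hu hu, norm_mul, norm_prod, pow_succ']
    refine mul_le_mul (le_of_lt (hK2 (cotraj_subset _ n hχ))) ?_ (by positivity) (norm_nonneg _)
    calc (m / s) ^ (n + 1) = ∏ _i ∈ Finset.range (n + 1), m / s := by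
          rw [Finset.prod_const, Finset.card_range]
      _ ≤ _ := Finset.prod_le_prod (fun _ _ => by positivity) fun i hi =>
          le_of_lt (hK2 ((mem_cotraj _).1 hχ i (Finset.mem_range.1 hi)))
  have e4 := e3.trans (hc U hU)
  have e5 : 0 ≤ μ.real (traj φ C (n + 1)) := measureReal_nonneg
  have e6 : μ.real (traj φ C (n + 1)) * ν.real (cotraj (PontryaginDual.map φ) K (n + 1)) *
      ((m / s) ^ (n + 1 + 1)) ^ 2 ≤ c * ((s * m) ^ (n + 1 + 1) * m ^ (n + 1 + 1)) := by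
    calc _ = μ.real (traj φ C (n + 1)) * (ν.real (cotraj (PontryaginDual.map φ) K (n + 1)) *
          ((m / s) ^ (n + 1 + 1)) ^ 2) := by ring
      _ ≤ μ.real (traj φ C (n + 1)) * (c * ∫ x, U x * U x ∂μ) := mul_le_mul_of_nonneg_left e4 e5
      _ = c * (μ.real (traj φ C (n + 1)) * ∫ x, U x * U x ∂μ) := by ring
      _ ≤ c * ((∫ y, w y ∂μ) ^ (n + 1 + 1) * m ^ (n + 1 + 1)) := mul_le_mul_of_nonneg_left e1 hc0
      _ ≤ _ := mul_le_mul_of_nonneg_left (mul_le_mul_of_nonneg_right e2 (by positivity)) hc0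
  have e7 : c * ((s * m) ^ (n + 1 + 1) * m ^ (n + 1 + 1)) =
      c * s ^ 3 * (s ^ 3) ^ (n + 1) * ((m / s) ^ (n + 1 + 1)) ^ 2 := by
    rw [div_pow, mul_pow]
    field_simp
    ring
  rw [e7] at e6
  exact le_of_mul_le_mul_right e6 (by positivity)

lemma one_mem_traj (n : ℕ) : (1 : G) ∈ traj φ {1} n := by
  cases n with
  | zero => exact mem_singleton _
  | succ n => exact subset_traj φ (mem_singleton _) n (mem_singleton _)

theorem dir2 [μ.InnerRegularCompactLTTop] {K' : Set (PontryaginDual G)} (hK' : IsCompact K')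
    (hK'1 : K' ∈ 𝓝 (1 : PontryaginDual G)) {s : ℝ} (hs : 1 < s) :
    ∃ C : Set G, IsCompact C ∧ C ∈ 𝓝 (1 : G) ∧ ∃ c : ℝ,
      ∀ n : ℕ, 1 ≤ c * s ^ (n + 1) *
        (μ.real (traj φ C (n + 1)) * ν.real (cotraj (PontryaginDual.map φ) K' (n + 1))) := by
  set ψ := PontryaginDual.map φ with hψ
  obtain ⟨V, hV, hV'⟩ := exists_nhds_split_inv hK'1
  obtain ⟨K, hK1, hK2, hK3⟩ := local_compact_nhds hV
  have hKK : ∀ a ∈ K, ∀ b ∈ K, a⁻¹ * b ∈ K' := by
    intro a ha b hb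
    have := hV' b (hK2 hb) a (hK2 ha)
    rwa [div_eq_mul_inv, mul_comm] at this
  obtain ⟨M, hM⟩ := exists_cover (hK3.image (map_continuous ψ)) hK1
  have hM' : ∀ x ∈ K, ∃ m ∈ M, m⁻¹ * ψ x ∈ K := fun x hx => hM _ ⟨x, hx, rfl⟩
  set d : ℝ := (s - 1) / (M.card + 1) with hd
  have hd0 : 0 < d := div_pos (by linarith) (by positivity)
  have hd1 : 1 + d * M.card ≤ s := by
    have : d * (M.card + 1) = s - 1 := by rw [hd]; field_simp
    nlinarith
  obtain ⟨u, hu, hu1, hu2⟩ := exists_conc μ hK1 (δ := Real.sqrt d) (Real.sqrt_pos.2 hd0)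
  obtain ⟨h, hh, hh1, hh2, N, hN, c₀, hc₀, hup⟩ := upper μ ν hK1
  obtain ⟨σ, σ', hσ, hσ', hσ1, -, h1, h2, h3, -⟩ := folner μ hN (ε := 1) one_pos
  have h5 := int_sq_le μ hσ hσ1
  set a := ∫ x, σ x ∂μ with ha
  have ha0 : 0 < a := by linarith
  set a' := ∫ x, σ' x ∂μ with ha'
  obtain ⟨V₀, hV₀, hV₀'⟩ := exists_compact_mem_nhds (1 : G)
  have hC : IsCompact (tsupport σ * tsupport u ∪ tsupport u ∪ V₀) :=
    ((IsCompact.mul hσ.supp hu.supp).union hu.supp).union hV₀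
  set C := tsupport σ * tsupport u ∪ tsupport u ∪ V₀ with hCd
  refine ⟨C, hC, mem_of_superset hV₀' subset_union_right, c₀ * a' ^ 2 / a ^ 2, fun n => ?_⟩
  have hZ := itZ_cc μ φ hu hσ (n + 1)
  have hZ' := itZ_cc μ φ hu hσ' (n + 1)
  set Z := itZ μ φ u σ (n + 1) with hZd
  set Z' := itZ μ φ u σ' (n + 1) with hZ'd
  have hmono : ∀ x, (∀ y, σ y ≤ σ' (x * y)) → ∀ y, Z y ≤ Z' (x * y) := by
    intro x hx y
    have := itZ_mono μ φ hu hσ hu hσ' (a := x) (C := {1}) hx
      (fun c hc y => by rw [mem_singleton_iff.1 hc, one_mul]) (n + 1) 1 (one_mem_traj φ _) y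
    simpa using this
  set b := ν.real (cotraj ψ K' (n + 1)) with hb
  have hb0 : 0 ≤ b := measureReal_nonneg
  have hs0 : 0 < s := by linarith
  have e1 : ∫ y, Z y * Z y ∂μ ≤ c₀ * (a' ^ 2 * (s ^ n * b)) := by
    refine hup Z' _ _ hZ' (by positivity) (fun x hx => ?_) (fun χ => ?_)
    · exact le_cor μ hZ hZ' hZ' (hmono x (h1 x hx))
        (fun y => by simpa using hmono 1 (fun y => by simpa using h2 y) y)
    · have hcc := cc_weight μ hh hZ' χ
      let p : PontryaginDual G → ℝ≥0∞ := fun χ => ENNReal.ofReal (‖ft μ u χ‖ ^ 2)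
      have hq1 : ∀ χ, ‖ft μ u χ‖ ≤ 1 := fun χ => hu1 ▸ norm_ft_le μ hu χ
      have hp : Measurable p := ((cont_ft μ hu).norm.pow 2).measurable.ennreal_ofReal
      have hp1 : ∀ x, p x ≤ 1 := fun x => ENNReal.ofReal_le_one.2 (by
        nlinarith [hq1 x, norm_nonneg (ft μ u x)])
      have hp2 : ∀ x ∉ K, p x ≤ ENNReal.ofReal d := fun x hx => ENNReal.ofReal_le_ofReal (by
        have := pow_le_pow_left₀ (norm_nonneg _) (hu2 x hx) 2
        rwa [Real.sq_sqrt hd0.le] at this)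
      have hE : MeasurableSet ((fun x => χ⁻¹ * x) ⁻¹' K) :=
        (hK3.isClosed.preimage (by fun_prop)).measurableSet
      have hcov := cover_bound ν ψ hK3.isClosed hKK hM' hp hp1 hp2 n 0 _ hE (by
        intro i hi
        rw [Nat.le_zero.1 hi]
        exact ⟨χ, fun _ hx => hx⟩)
      have hQ : Measurable fun x => ∏ i ∈ Finset.range n, p ((⇑ψ)^[0 + 1 + i] x) :=
        Finset.measurable_prod _ fun i _ => hp.comp (cont_iter ψ _).measurable
      rw [← integral_mul_left_eq_self _ χ⁻¹,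
        integral_eq_lintegral_of_nonneg_ae (Eventually.of_forall (hcc.transl χ⁻¹).nonneg)
        (hcc.transl χ⁻¹).cont.aestronglyMeasurable]
      apply ENNReal.toReal_le_of_le_ofReal (by positivity)
      have hpt : ∀ x, ENNReal.ofReal (h (χ⁻¹ * x) * ‖ft μ Z' (χ⁻¹ * x * χ)‖ ^ 2) ≤
          ENNReal.ofReal (a' ^ 2) * ((fun x => χ⁻¹ * x) ⁻¹' K).indicator
            (fun x => ∏ i ∈ Finset.range n, p ((⇑ψ)^[0 + 1 + i] x)) x := by
        intro x
        by_cases hx : x ∈ (fun x => χ⁻¹ * x) ⁻¹' K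
        · rw [indicator_of_mem hx, ← ENNReal.ofReal_prod_of_nonneg (fun _ _ => by positivity),
            ← ENNReal.ofReal_mul (by positivity)]
          apply ENNReal.ofReal_le_ofReal
          have e2 : χ⁻¹ * x * χ = x := by rw [mul_comm, mul_inv_cancel_left]
          rw [e2, hZ'd, ft_itZ μ φ hu hσ', norm_mul, norm_prod, Finset.prod_range_succ',
            Finset.prod_pow]
          have e3 : ∏ i ∈ Finset.range n, ‖ft μ u ((⇑ψ)^[0 + 1 + i] x)‖ =
              ∏ i ∈ Finset.range n, ‖ft μ u ((⇑ψ)^[i + 1] x)‖ :=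
            Finset.prod_congr rfl fun i _ => by rw [zero_add, add_comm]
          rw [e3, ← mul_pow]
          set P := ∏ i ∈ Finset.range n, ‖ft μ u ((⇑ψ)^[i + 1] x)‖ with hP
          have hP0 : 0 ≤ P := Finset.prod_nonneg fun _ _ => norm_nonneg _
          have e4 : ‖ft μ σ' x‖ * (P * ‖ft μ u ((⇑ψ)^[0] x)‖) ≤ a' * P :=
            mul_le_mul (norm_ft_le μ hσ' x) (mul_le_of_le_one_right hP0 (hq1 _))
              (by positivity) (hσ'.int_nonneg μ)
          exact (mul_le_of_le_one_left (by positivity) (hh1 _)).trans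
            (pow_le_pow_left₀ (by positivity) e4 2)
        · rw [hh2 _ hx]; simp
      refine (lintegral_mono hpt).trans ?_
      rw [lintegral_const_mul _ (hQ.indicator hE), lintegral_indicator hE,
        ENNReal.ofReal_mul (by positivity)]
      refine mul_le_mul_right (hcov.trans ?_) _
      rw [ENNReal.ofReal_mul (by positivity), hb, zero_add, add_comm 1 n,
        ofReal_measureReal (isCompact_cotraj ψ hK' n).measure_ne_top, ENNReal.ofReal_pow hs0.le]
      refine mul_le_mul_left (pow_le_pow_left₀ zero_le ?_ n) _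
      refine le_trans (le_of_eq ?_) (ENNReal.ofReal_le_ofReal hd1)
      rw [ENNReal.ofReal_add zero_le_one (by positivity), ENNReal.ofReal_mul hd0.le]
      simp
  have e2 : a ^ 2 ≤ μ.real (traj φ C (n + 1)) * ∫ y, Z y * Z y ∂μ := by
    have e3 := cauchy_schwarz μ hZ (isCompact_traj φ hC (n + 1)) (fun x hx =>
      itZ_zero μ φ (A := tsupport σ) (B := tsupport u)
        (fun _ h => image_eq_zero_of_notMem_tsupport h)
        (fun _ h => image_eq_zero_of_notMem_tsupport h) (n + 1) x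
        (fun h => hx (mul_traj_subset φ (subset_union_left.trans subset_union_left)
          (subset_union_right.trans subset_union_left) n h)))
    rw [hZd, int_itZ μ φ hu hσ, hu1, one_pow, mul_one] at e3
    exact e3
  have e5 : 0 ≤ μ.real (traj φ C (n + 1)) := measureReal_nonneg
  have e6 := e2.trans (mul_le_mul_of_nonneg_left e1 e5)
  have e7 : s ^ n ≤ s ^ (n + 1) := pow_le_pow_right₀ hs.le (Nat.le_succ n)
  rw [div_mul_eq_mul_div, div_mul_eq_mul_div, le_div_iff₀ (by positivity), one_mul]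
  refine e6.trans ?_
  have e8 : 0 ≤ μ.real (traj φ C (n + 1)) * c₀ * a' ^ 2 * b := by positivity
  nlinarith [mul_le_mul_of_nonneg_left e7 e8]

lemma limsup_le_of (f : ℕ → EReal) (S : EReal)
    (H : ∀ η : ℝ, 0 < η → ∃ g : ℕ → EReal, limsup g atTop ≤ S ∧ ∃ e : ℝ, ∀ n : ℕ, ∃ x y : ℝ,
      f (n + 1) = x ∧ g (n + 1) = y ∧ x ≤ y + e / ((n + 1 : ℕ) : ℝ) + η) :
    limsup f atTop ≤ S := by
  refine le_of_forall_gt_imp_ge_of_dense fun y hy => ?_
  obtain ⟨z, hz1, hz2⟩ := EReal.lt_iff_exists_real_btwn.1 hy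
  obtain ⟨w, hw1, hw2⟩ := EReal.lt_iff_exists_real_btwn.1 hz2
  have hzw : z < w := by exact_mod_cast hw1
  obtain ⟨g, hg, e, he⟩ := H ((w - z) / 2) (by linarith)
  have h1 := eventually_lt_of_limsup_lt (hg.trans_lt hz1)
  have h2 : ∀ᶠ n : ℕ in atTop, e / (n : ℝ) < (w - z) / 2 :=
    (tendsto_const_div_atTop_nhds_zero_nat e).eventually (gt_mem_nhds (by linarith))
  refine limsup_le_of_le (by isBoundedDefault) ?_
  filter_upwards [h1, h2, eventually_ge_atTop 1] with n hn1 hn2 hn3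
  obtain ⟨m, rfl⟩ : ∃ m, n = m + 1 := ⟨n - 1, by omega⟩
  obtain ⟨x, y', hx, hy', hxy⟩ := he m
  refine le_trans ?_ hw2.le
  rw [hy'] at hn1
  have hn1' : y' < z := by exact_mod_cast hn1
  rw [hx]
  have : x ≤ w := by linarith
  exact_mod_cast this

lemma real_eq_smul {T : Set G} (hT : IsCompact T) :
    μ.real T = (Measure.haarScalarFactor μ (Measure.haar : Measure G) : ℝ) *
      (Measure.haar : Measure G).real T := by
  rw [Measure.real, Measure.measure_isMulInvariant_eq_smul_of_isCompact_closure μ Measure.haar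
    hT.closure]
  simp [Measure.real, ENNReal.smul_def]

theorem bridge :
    (⨆ (K : Set G) (_ : IsCompact K ∧ K ∈ nhds (1 : G)),
        Filter.limsup
          (fun n : ℕ => (((n : ℝ)⁻¹ : ℝ) : EReal) * ENNReal.log (μ (traj φ K n))) Filter.atTop)
    = ⨆ (K : Set (PontryaginDual G)) (_ : IsCompact K ∧ K ∈ nhds (1 : PontryaginDual G)),
        Filter.limsup
          (fun n : ℕ => (((n : ℝ)⁻¹ : ℝ) : EReal) *
            -ENNReal.log (ν (cotraj (PontryaginDual.map φ) K n))) Filter.atTop := by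
  set κ : ℝ := ((Measure.haarScalarFactor μ (Measure.haar : Measure G) : NNReal) : ℝ) with hκ
  have hκ0 : 0 < κ := by
    rw [hκ]; exact_mod_cast Measure.haarScalarFactor_pos_of_isHaarMeasure μ Measure.haar
  have hA : ∀ {C : Set G}, IsCompact C → C ∈ 𝓝 (1 : G) → ∀ n : ℕ,
      0 < μ.real (traj φ C (n + 1)) ∧
      ((((n + 1 : ℕ) : ℝ)⁻¹ : ℝ) : EReal) * ENNReal.log (μ (traj φ C (n + 1))) =
        ((((n + 1 : ℕ) : ℝ)⁻¹ * Real.log (μ.real (traj φ C (n + 1))) : ℝ) : EReal) := by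
    intro C h1 h2 n
    have h3 : μ (traj φ C (n + 1)) ≠ 0 := (Measure.measure_pos_of_mem_nhds μ
      (mem_of_superset h2 (subset_traj φ (mem_of_mem_nhds h2) n))).ne'
    have h4 := (isCompact_traj φ h1 (n + 1)).measure_ne_top (μ := μ)
    refine ⟨ENNReal.toReal_pos h3 h4, ?_⟩
    rw [ENNReal.log_pos_real h3 h4, EReal.coe_mul]
    rfl
  have hB : ∀ {K : Set (PontryaginDual G)}, IsCompact K → K ∈ 𝓝 (1 : PontryaginDual G) → ∀ n : ℕ,
      0 < ν.real (cotraj (PontryaginDual.map φ) K (n + 1)) ∧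
      ((((n + 1 : ℕ) : ℝ)⁻¹ : ℝ) : EReal) *
        -ENNReal.log (ν (cotraj (PontryaginDual.map φ) K (n + 1))) =
        ((((n + 1 : ℕ) : ℝ)⁻¹ *
          -Real.log (ν.real (cotraj (PontryaginDual.map φ) K (n + 1))) : ℝ) : EReal) := by
    intro K h1 h2 n
    have h3 : ν (cotraj (PontryaginDual.map φ) K (n + 1)) ≠ 0 :=
      (Measure.measure_pos_of_mem_nhds ν (cotraj_mem_nhds _ h2 _)).ne'
    have h4 := (isCompact_cotraj (PontryaginDual.map φ) h1 n).measure_ne_top (μ := ν)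
    refine ⟨ENNReal.toReal_pos h3 h4, ?_⟩
    rw [ENNReal.log_pos_real h3 h4, EReal.coe_mul, EReal.coe_neg]
    rfl
  apply le_antisymm
  · refine iSup₂_le fun C hC => limsup_le_of _ _ fun η hη => ?_
    obtain ⟨K, hK1, hK2, c, hc⟩ := dir1 Measure.haar ν φ hC.1 (s := Real.exp (η / 3))
      (Real.one_lt_exp_iff.2 (by linarith))
    refine ⟨_, le_iSup₂_of_le K ⟨hK1, hK2⟩ le_rfl, Real.log (κ * c), fun n => ?_⟩
    obtain ⟨p1, q1⟩ := hA hC.1 hC.2 n
    obtain ⟨p2, q2⟩ := hB hK1 hK2 n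
    refine ⟨_, _, q1, q2, ?_⟩
    have h1 := mul_le_mul_of_nonneg_left (hc n) hκ0.le
    rw [← mul_assoc, ← real_eq_smul μ (isCompact_traj φ hC.1 _), ← Real.exp_nat_mul,
      ← Real.exp_nat_mul, ← mul_assoc] at h1
    have h2 : 0 < κ * c := by
      have := (mul_pos p1 p2).trans_le h1
      exact (mul_pos_iff_of_pos_right (Real.exp_pos _)).1 this
    have h3 := Real.log_le_log (mul_pos p1 p2) h1
    rw [Real.log_mul p1.ne' p2.ne', Real.log_mul h2.ne' (Real.exp_pos _).ne', Real.log_exp] at h3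
    have hpos : (0 : ℝ) < ((n + 1 : ℕ) : ℝ) := by positivity
    have h4 := mul_le_mul_of_nonneg_left h3 (inv_pos.2 hpos).le
    have h5 : ((n + 1 : ℕ) : ℝ)⁻¹ * (Real.log (κ * c) + ((n + 1 : ℕ) : ℝ) * (((3 : ℕ) : ℝ) * (η / 3))) =
        Real.log (κ * c) / ((n + 1 : ℕ) : ℝ) + η := by
      field_simp
      push_cast
      ring
    rw [h5] at h4
    linarith
  · refine iSup₂_le fun K hK => limsup_le_of _ _ fun η hη => ?_
    obtain ⟨C, hC1, hC2, c, hc⟩ := dir2 Measure.haar ν φ hK.1 hK.2 (s := Real.exp η)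
      (Real.one_lt_exp_iff.2 hη)
    refine ⟨_, le_iSup₂_of_le C ⟨hC1, hC2⟩ le_rfl, Real.log (c / κ), fun n => ?_⟩
    obtain ⟨p1, q1⟩ := hA hC1 hC2 n
    obtain ⟨p2, q2⟩ := hB hK.1 hK.2 n
    refine ⟨_, _, q2, q1, ?_⟩
    have h1 : 1 ≤ c / κ * Real.exp (((n + 1 : ℕ) : ℝ) * η) *
        (μ.real (traj φ C (n + 1)) * ν.real (cotraj (PontryaginDual.map φ) K (n + 1))) := by
      refine (hc n).trans (le_of_eq ?_)
      rw [real_eq_smul μ (isCompact_traj φ hC1 _), ← hκ, Real.exp_nat_mul]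
      field_simp
    have h2 : 0 < c / κ := by
      by_contra h
      push Not at h
      have := mul_nonpos_of_nonpos_of_nonneg (mul_nonpos_of_nonpos_of_nonneg h
        (Real.exp_pos (((n + 1 : ℕ) : ℝ) * η)).le) (mul_pos p1 p2).le
      linarith
    have h3 := Real.log_le_log one_pos h1
    rw [Real.log_one, Real.log_mul (mul_pos h2 (Real.exp_pos _)).ne' (mul_pos p1 p2).ne',
      Real.log_mul p1.ne' p2.ne', Real.log_mul h2.ne' (Real.exp_pos _).ne', Real.log_exp] at h3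
    have hpos : (0 : ℝ) < ((n + 1 : ℕ) : ℝ) := by positivity
    have h4 := mul_nonneg (inv_pos.2 hpos).le h3
    have h5 : ((n + 1 : ℕ) : ℝ)⁻¹ * (Real.log (c / κ) + ((n + 1 : ℕ) : ℝ) * η) =
        Real.log (c / κ) / ((n + 1 : ℕ) : ℝ) + η := by
      field_simp
    rw [mul_add, h5] at h4
    linarith

end Pool.Agent.H694Z.Br
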